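import Pool.Agent.H926R3.Br.Fix

/-!
# The curves which are periodic under the model braid
-/

set_option autoImplicit false
set_option linter.unusedSimpArgs false

namespace Pool.Agent.H926R3.Br

/-- forgetting all punctures except `a` and `b` -/
def forget (a b : Fin 5) : F →* H2 :=
  FreeGroup.lift fun k => if k = a then Z 0 else if k = b then Z 1 else 1

lemma forget_X (a b k : Fin 5) :
    forget a b (X k) = if k = a then Z 0 else if k = b then Z 1 else 1 :=
  FreeGroup.lift_apply_of

/-- the boundary word -/
def full : F := X 0 * X 1 * X 2 * X 3 * X 4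

lemma a20 : ar s2 (X 0) = X 0 := by
  rw [ar_σ]; exact artin_other (n := 5) 2 0 (by decide) (by decide)
lemma a21 : ar s2 (X 1) = X 1 := by
  rw [ar_σ]; exact artin_other (n := 5) 2 1 (by decide) (by decide)
lemma a22 : ar s2 (X 2) = X 2 * X 3 * (X 2)⁻¹ := by
  rw [ar_σ]; exact artin_lo (n := 5) 2
lemma a23 : ar s2 (X 3) = X 2 := by
  rw [ar_σ]; exact artin_hi (n := 5) 2
lemma a24 : ar s2 (X 4) = X 4 := by
  rw [ar_σ]; exact artin_other (n := 5) 2 4 (by decide) (by decide)

lemma ar_full_σ (i : Fin 4) : ar (σ (n := 5) i) full = full := by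
  rcases fin4 i with rfl | rfl | rfl | rfl
  · change ar s0 full = full
    simp only [full, map_mul, a00, a01, a02, a03, a04]
    group
  · change ar s1 full = full
    simp only [full, map_mul, a10, a11, a12, a13, a14]
    group
  · change ar s2 full = full
    simp only [full, map_mul, a20, a21, a22, a23, a24]
    group
  · change ar s3 full = full
    simp only [full, map_mul, a30, a31, a32, a33, a34]
    group

lemma ar_full (x : B 5) : ar x full = full := by
  induction x using PresentedGroup.induction_on with
  | _ z =>
  induction z using FreeGroup.induction_on with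
  | C1 => exact ar_one _
  | of i => exact ar_full_σ i
  | inv_of i _ =>
    have h := ar_inv (σ (n := 5) i) full
    rw [ar_full_σ] at h
    exact h
  | mul x y hx hy =>
    rw [map_mul, ar_mul, hx, hy]

/-- the word of a round curve -/
def rw' (i j : Fin 5) : List (Fin 5) := (List.finRange 5).filter fun k => i ≤ k ∧ k ≤ j

lemma prod_filter {H : Type} [Group H] (φ : F →* H) (ka kb : Fin 5)
    (h : ∀ k, k ≠ ka → k ≠ kb → φ (X k) = 1) (L : List (Fin 5)) :
    φ (L.map FreeGroup.of).prod =
      φ ((L.filter (fun k => decide (k = ka ∨ k = kb))).map FreeGroup.of).prod := by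
  induction L with
  | nil => rfl
  | cons a L ih =>
    rw [List.map_cons, List.prod_cons, map_mul, ih, List.filter_cons]
    by_cases hk : a = ka ∨ a = kb
    · rw [if_pos (by simpa using hk), List.map_cons, List.prod_cons, map_mul]
    · rw [if_neg (by simpa using hk)]
      rw [not_or] at hk
      have : φ (FreeGroup.of a) = 1 := h a hk.1 hk.2
      rw [this, one_mul]

lemma filt_single (k : Fin 5) : (List.finRange 5).filter (fun l => decide (l = k)) = [k] := by
  revert k; decide

lemma full_list : full = ((List.finRange 5).map FreeGroup.of).prod := by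
  have : ((List.finRange 5).map FreeGroup.of).prod = X 0 * (X 1 * (X 2 * (X 3 * (X 4 * 1)))) := rfl
  rw [this, full]
  group

lemma forget_class (a b : Fin 5) (hab : a ≠ b) (hfull : forget a b full = Z 0 * Z 1) (γ : B 5)
    (i j : Fin 5) :
    IsConj (forget a b (ar γ ((rw' i j).map FreeGroup.of).prod)) 1 ∨
    IsConj (forget a b (ar γ ((rw' i j).map FreeGroup.of).prod)) (Z 0) ∨
    IsConj (forget a b (ar γ ((rw' i j).map FreeGroup.of).prod)) (Z 1) ∨
    IsConj (forget a b (ar γ ((rw' i j).map FreeGroup.of).prod)) (Z 0 * Z 1) := by
  set φ : F →* H2 := (forget a b).comp (ar γ).toMonoidHom with hφ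
  have hφ' : ∀ w, forget a b (ar γ w) = φ w := fun _ => rfl
  set ka := (pm γ)⁻¹ a with hka
  set kb := (pm γ)⁻¹ b with hkb
  have pa : pm γ ka = a := by rw [hka]; exact Equiv.apply_symm_apply _ _
  have pb : pm γ kb = b := by rw [hkb]; exact Equiv.apply_symm_apply _ _
  have hkab : ka ≠ kb := fun e => hab (by rw [← pa, ← pb, e])
  have h1 : ∀ k, k ≠ ka → k ≠ kb → φ (X k) = 1 := by
    intro k h1 h2
    obtain ⟨w, hw, -⟩ := good γ k
    rw [← hφ', hw, map_mul, map_mul, forget_X, if_neg, if_neg, map_inv, mul_one, mul_inv_cancel]
    · rw [← pb]; exact fun e => h2 ((pm γ).injective e)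
    · rw [← pa]; exact fun e => h1 ((pm γ).injective e)
  have ha : IsConj (φ (X ka)) (Z 0) := by
    obtain ⟨w, hw, -⟩ := good γ ka
    rw [← hφ', hw, map_mul, map_mul, forget_X, pa, if_pos rfl, map_inv]
    exact isConj_cj _ _
  have hb : IsConj (φ (X kb)) (Z 1) := by
    obtain ⟨w, hw, -⟩ := good γ kb
    rw [← hφ', hw, map_mul, map_mul, forget_X, pb, if_neg hab.symm, if_pos rfl, map_inv]
    exact isConj_cj _ _
  rw [hφ', prod_filter φ ka kb h1, rw', List.filter_filter]
  by_cases ca : i ≤ ka ∧ ka ≤ j
  · by_cases cb : i ≤ kb ∧ kb ≤ j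
    · right; right; right
      have e : (List.finRange 5).filter (fun k => decide (k = ka ∨ k = kb) &&
          decide (i ≤ k ∧ k ≤ j)) =
          (List.finRange 5).filter (fun k => decide (k = ka ∨ k = kb)) := by
        apply List.filter_congr
        intro k _
        by_cases hk : k = ka ∨ k = kb
        · have : i ≤ k ∧ k ≤ j := by
            rcases hk with rfl | rfl
            · exact ca
            · exact cb
          simp [hk, this]
        · simp [hk]
      rw [e, ← prod_filter φ ka kb h1, ← full_list, ← hφ', ar_full, hfull]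
    · right; left
      have e : (List.finRange 5).filter (fun k => decide (k = ka ∨ k = kb) &&
          decide (i ≤ k ∧ k ≤ j)) = [ka] := by
        rw [← filt_single ka]
        apply List.filter_congr
        intro k _
        by_cases hk : k = ka
        · subst hk
          simp [ca]
        · by_cases hk' : k = kb
          · subst hk'
            simp only [cb, decide_false, Bool.and_false, hk]
          · simp [hk, hk']
      rw [e, List.map_singleton, List.prod_singleton]
      exact ha
  · by_cases cb : i ≤ kb ∧ kb ≤ j
    · right; right; left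
      have e : (List.finRange 5).filter (fun k => decide (k = ka ∨ k = kb) &&
          decide (i ≤ k ∧ k ≤ j)) = [kb] := by
        rw [← filt_single kb]
        apply List.filter_congr
        intro k _
        by_cases hk : k = kb
        · subst hk
          simp [cb]
        · by_cases hk' : k = ka
          · subst hk'
            simp only [ca, decide_false, Bool.and_false, hk]
          · simp [hk, hk']
      rw [e, List.map_singleton, List.prod_singleton]
      exact hb
    · left
      have e : (List.finRange 5).filter (fun k => decide (k = ka ∨ k = kb) &&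
          decide (i ≤ k ∧ k ≤ j)) = [] := by
        apply List.filter_eq_nil_iff.2
        intro k _ hk
        simp only [Bool.and_eq_true, decide_eq_true_eq] at hk
        rcases hk with ⟨rfl | rfl, h⟩
        · exact ca h
        · exact cb h
      rw [e, List.map_nil, List.prod_nil, map_one]

/-- total exponent sum -/
def tot : F →* Multiplicative ℤ := FreeGroup.lift fun _ => Multiplicative.ofAdd 1

def tz (w : F) : ℤ := Multiplicative.toAdd (tot w)

lemma tz_mul (u v : F) : tz (u * v) = tz u + tz v := by simp [tz]
lemma tz_inv (u : F) : tz u⁻¹ = -tz u := by simp [tz]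
lemma tz_one : tz 1 = 0 := by simp [tz]
lemma tz_X (k : Fin 5) : tz (X k) = 1 := by simp [tz, tot]

lemma tz_conj {u v : F} (h : IsConj u v) : tz u = tz v := by
  obtain ⟨c, rfl⟩ := isConj_iff.1 h
  rw [tz_mul, tz_mul, tz_inv]
  ring

lemma tz_ar (γ : B 5) (w : F) : tz (ar γ w) = tz w := by
  have h : tot.comp (ar γ).toMonoidHom = tot := by
    apply FreeGroup.ext_hom
    intro k
    change tot (ar γ (X k)) = tot (X k)
    obtain ⟨v, hv, -⟩ := good γ k
    rw [hv, map_mul, map_mul, map_inv, mul_inv_cancel_comm]
    simp [tot]
  have := DFunLike.congr_fun h w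
  unfold tz
  rw [← this]
  rfl

lemma tz_list (L : List (Fin 5)) : tz (L.map FreeGroup.of).prod = L.length := by
  induction L with
  | nil => simp [tz_one]
  | cons a L ih =>
    rw [List.map_cons, List.prod_cons, tz_mul, ih, List.length_cons]
    change tz (X a) + _ = _
    rw [tz_X]
    push_cast
    ring

lemma len_rw (i j : Fin 5) (h : Nondeg i j) : 2 ≤ (rw' i j).length ∧ (rw' i j).length ≤ 4 := by
  unfold Nondeg at h
  revert i j
  decide

lemma upgrade (P Q : F) (a b : Fin 5) (hab : a ≠ b) (hfull : forget a b full = Z 0 * Z 1)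
    (hP : forget a b P = Z 0) (hQ : forget a b Q = Z 1) (d : F) (γ : B 5) (i j : Fin 5)
    (hd : IsConj d (ar γ ((rw' i j).map FreeGroup.of).prod)) (g : H2)
    (hg : IsConj d (ιh P Q g)) :
    IsConj d 1 ∨ IsConj d P ∨ IsConj d Q ∨ IsConj d (P * Q) := by
  have h1 : forget a b (ιh P Q g) = g := by
    have : (forget a b).comp (ιh P Q) = MonoidHom.id H2 := by
      apply FreeGroup.ext_hom
      intro k
      rw [MonoidHom.comp_apply]
      fin_cases k
      · exact (congrArg (forget a b) (ιh_0 P Q)).trans hP
      · exact (congrArg (forget a b) (ιh_1 P Q)).trans hQ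
    exact DFunLike.congr_fun this g
  have h2 : IsConj g (forget a b (ar γ ((rw' i j).map FreeGroup.of).prod)) := by
    have := isConj_map (forget a b) (hg.symm.trans hd)
    rwa [h1] at this
  rcases forget_class a b hab hfull γ i j with h | h | h | h
  · left
    have := hg.trans (isConj_map (ιh P Q) (h2.trans h))
    rwa [map_one] at this
  · right; left
    have := hg.trans (isConj_map (ιh P Q) (h2.trans h))
    rwa [ιh_0] at this
  · right; right; left
    have := hg.trans (isConj_map (ιh P Q) (h2.trans h))
    rwa [ιh_1] at this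
  · right; right; right
    have := hg.trans (isConj_map (ιh P Q) (h2.trans h))
    rwa [map_mul, ιh_0, ιh_1] at this

theorem classify (p q r : ℕ) (hp : 1 ≤ p) (hq : 1 ≤ q) (hr : 1 ≤ r) (d : F) (γ : B 5)
    (i j : Fin 5) (hij : Nondeg i j)
    (hd : IsConj d (ar γ ((rw' i j).map FreeGroup.of).prod))
    (hT : ∀ m : ℕ, IsConj ((T p q r)^[m] d) d) :
    IsConj d wA ∨ IsConj d wB ∨ IsConj d wE := by
  have hlen := len_rw i j hij
  have ht : tz d = (rw' i j).length := by rw [tz_conj hd, tz_ar, tz_list]
  have tA : tz wA = 2 := by simp [tz_mul, tz_X]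
  have tB : tz wB = 3 := by simp [tz_mul, tz_X]
  have tE : tz wE = 2 := by simp [tz_mul, tz_X]
  rcases elliptic p q r hp hq hr d hT with ⟨g, hg⟩ | ⟨g, hg⟩ | ⟨g, hg⟩ | ⟨g, hg⟩
  · have := upgrade (X 0) (X 1) 0 1 (by decide)
      (by simp [full, forget_X]) (by simp [forget_X])
      (by simp [forget_X]) d γ i j hd g hg
    rcases this with h | h | h | h
    · have := tz_conj h; rw [tz_one] at this; omega
    · have := tz_conj h; rw [tz_X] at this; omega
    · have := tz_conj h; rw [tz_X] at this; omega
    · exact Or.inl h
  · have := upgrade wA (X 2) 1 2 (by decide)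
      (by simp [full, forget_X]) (by simp [forget_X])
      (by simp [forget_X]) d γ i j hd g hg
    rcases this with h | h | h | h
    · have := tz_conj h; rw [tz_one] at this; omega
    · exact Or.inl h
    · have := tz_conj h; rw [tz_X] at this; omega
    · exact Or.inr (Or.inl h)
  · have := upgrade wB wE 2 4 (by decide)
      (by simp [full, forget_X]) (by simp [forget_X])
      (by simp [forget_X]) d γ i j hd g hg
    rcases this with h | h | h | h
    · have := tz_conj h; rw [tz_one] at this; omega
    · exact Or.inr (Or.inl h)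
    · exact Or.inr (Or.inr h)
    · have := tz_conj h; rw [tz_mul, tB, tE] at this; omega
  · have := upgrade (X 3) (X 4) 3 4 (by decide)
      (by simp [full, forget_X]) (by simp [forget_X])
      (by simp [forget_X]) d γ i j hd g hg
    rcases this with h | h | h | h
    · have := tz_conj h; rw [tz_one] at this; omega
    · have := tz_conj h; rw [tz_X] at this; omega
    · have := tz_conj h; rw [tz_X] at this; omega
    · exact Or.inr (Or.inr h)

end Pool.Agent.H926R3.Br
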