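import Pool.Agent.H926R3.Br.Defs

/-!
# Crossing numbers of braids on five strands
-/

set_option autoImplicit false

namespace Pool.Agent.H926R3.Br

/-- a permutation together with a matrix of crossing numbers -/
@[ext] structure W where
  p : Equiv.Perm (Fin 5)
  e : Fin 5 → Fin 5 → ℤ

namespace W

instance : Mul W := ⟨fun a b => ⟨b.p * a.p, fun i j => a.e i j + b.e (a.p i) (a.p j)⟩⟩
instance : One W := ⟨⟨1, fun _ _ => 0⟩⟩
instance : Inv W := ⟨fun a => ⟨a.p⁻¹, fun i j => -a.e (a.p⁻¹ i) (a.p⁻¹ j)⟩⟩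

lemma mul_p (a b : W) : (a * b).p = b.p * a.p := rfl
lemma mul_e (a b : W) (i j : Fin 5) : (a * b).e i j = a.e i j + b.e (a.p i) (a.p j) := rfl
lemma one_p : (1 : W).p = 1 := rfl
lemma one_e (i j : Fin 5) : (1 : W).e i j = 0 := rfl
lemma inv_p (a : W) : (a⁻¹).p = a.p⁻¹ := rfl
lemma inv_e (a : W) (i j : Fin 5) : (a⁻¹).e i j = -a.e (a.p⁻¹ i) (a.p⁻¹ j) := rfl

instance : Group W :=
  Group.ofLeftAxioms
    (by
      intro a b c
      ext i j
      · simp [mul_p, mul_assoc]
      · simp [mul_e, mul_p, add_assoc])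
    (by
      intro a
      ext i j
      · simp [mul_p, one_p]
      · simp [mul_e, one_p, one_e])
    (by
      intro a
      ext i j
      · simp [mul_p, one_p, inv_p]
      · simp [mul_e, one_e, inv_p, inv_e])

end W

/-- the crossing data of the generators -/
def wgen (i : Fin 4) : W :=
  ⟨Equiv.swap i.castSucc i.succ, fun a b =>
    if (a = i.castSucc ∧ b = i.succ) ∨ (a = i.succ ∧ b = i.castSucc) then 1 else 0⟩

lemma wgen_comm : ∀ i j : Fin 4, (i : ℕ) + 2 ≤ j → wgen i * wgen j = wgen j * wgen i := by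
  intro i j h
  apply W.ext
  · revert i j
    simp only [W.mul_p, wgen]
    decide
  · funext a b
    revert i j a b
    simp only [W.mul_e, wgen]
    decide

lemma wgen_braid : ∀ i j : Fin 4, (i : ℕ) + 1 = j →
    wgen i * wgen j * wgen i = wgen j * wgen i * wgen j := by
  intro i j h
  apply W.ext
  · revert i j
    simp only [W.mul_p, wgen]
    decide
  · funext a b
    revert i j a b
    simp only [W.mul_e, W.mul_p, wgen]
    decide

/-- crossing data of a braid on five strands -/
def cross : B 5 →* W :=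
  PresentedGroup.toGroup (f := wgen) (by
    rintro r (⟨i, j, h, rfl⟩ | ⟨i, j, h, rfl⟩)
    · simp only [map_mul, map_inv, FreeGroup.lift_apply_of]
      rw [mul_inv_eq_one, wgen_comm i j h]
    · simp only [map_mul, map_inv, FreeGroup.lift_apply_of]
      rw [mul_inv_eq_one, wgen_braid i j h])

lemma cross_σ (i : Fin 4) : cross (σ (n := 5) i) = wgen i := PresentedGroup.toGroup.of _

/-- permutation of the strands -/
def pm (x : B 5) : Equiv.Perm (Fin 5) := (cross x).p

/-- crossing numbers -/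
def en (x : B 5) (a b : Fin 5) : ℤ := (cross x).e a b

lemma pm_mul (x y : B 5) : pm (x * y) = pm y * pm x := by
  simp only [pm, map_mul, W.mul_p]

lemma en_mul (x y : B 5) (a b : Fin 5) :
    en (x * y) a b = en x a b + en y (pm x a) (pm x b) := by
  simp only [pm, en, map_mul, W.mul_e]

lemma pm_one : pm 1 = 1 := by simp only [pm, map_one, W.one_p]

lemma en_one (a b : Fin 5) : en 1 a b = 0 := by simp only [en, map_one, W.one_e]

lemma pm_σ (i : Fin 4) : pm (σ (n := 5) i) = (wgen i).p := by rw [pm, cross_σ]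

lemma en_σ (i : Fin 4) (a b : Fin 5) : en (σ (n := 5) i) a b = (wgen i).e a b := by
  rw [en, cross_σ]

lemma en_nonneg {x : B 5} (hx : x ∈ Pos 5) (a b : Fin 5) : 0 ≤ en x a b := by
  induction hx using Submonoid.closure_induction generalizing a b with
  | mem x hx =>
    obtain ⟨i, rfl⟩ := hx
    rw [en_σ, wgen]
    dsimp only
    split_ifs <;> norm_num
  | one => rw [en_one]
  | mul x y _ _ hx hy =>
    rw [en_mul]
    have := hx a b
    have := hy (pm x a) (pm x b)
    omega

/-- crossing numbers are monotone for the order `≼` -/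
lemma en_le_of_pre {x y : B 5} (h : Pre x y) (a b : Fin 5) : en x a b ≤ en y a b := by
  have h1 := en_nonneg h (pm x a) (pm x b)
  have h2 := en_mul x (x⁻¹ * y) a b
  rw [mul_inv_cancel_left] at h2
  omega

abbrev s0 : B 5 := σ (n := 5) (0 : Fin 4)
abbrev s1 : B 5 := σ (n := 5) (1 : Fin 4)
abbrev s2 : B 5 := σ (n := 5) (2 : Fin 4)
abbrev s3 : B 5 := σ (n := 5) (3 : Fin 4)

lemma delta_eq : Δ 5 = s0 * (s1 * s0) * (s2 * s1 * s0) * (s3 * s2 * s1 * s0) := by
  have : Δ 5 = (s0 * 1) * ((s1 * (s0 * 1)) * ((s2 * (s1 * (s0 * 1))) *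
      ((s3 * (s2 * (s1 * (s0 * 1)))) * 1))) := rfl
  rw [this]
  group

lemma en_delta (a b : Fin 5) (h : a ≠ b) : en (Δ 5) a b = 1 := by
  rw [delta_eq]
  simp only [en_mul, pm_mul, en_σ, pm_σ]
  revert a b
  simp only [wgen]
  decide

end Pool.Agent.H926R3.Br
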