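import Pool.Agent.H926R3.Br.Rel

/-!
# Normal forms and the preferred prefix
-/

set_option autoImplicit false
set_option linter.unusedSimpArgs false

namespace Pool.Agent.H926R3.Br

lemma pos_σ (i : Fin 4) : σ (n := 5) i ∈ Pos 5 := Submonoid.subset_closure ⟨i, rfl⟩
lemma p0 : s0 ∈ Pos 5 := pos_σ 0
lemma p1 : s1 ∈ Pos 5 := pos_σ 1
lemma p2 : s2 ∈ Pos 5 := pos_σ 2
lemma p3 : s3 ∈ Pos 5 := pos_σ 3
lemma pD : D ∈ Pos 5 := mul_mem (mul_mem p0 p1) p0

lemma delta_fac : D * s3 * (s2 * s3 * s1 * s2 * s0 * s1) = Δ 5 := by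
  have h : s2 * s1 * s0 * (s3 * s2 * s1 * s0) = s3 * s2 * s3 * s1 * s2 * s0 * s1 := by
    calc s2 * s1 * s0 * (s3 * s2 * s1 * s0) = s2 * s1 * (s3 * s0) * s2 * s1 * s0 := by
          rw [c03]; group
      _ = s2 * (s3 * s1) * (s2 * s0) * s1 * s0 := by rw [c13, c02]; group
      _ = s2 * s3 * s1 * s2 * (s0 * s1 * s0) := by group
      _ = s2 * s3 * (s1 * s2 * s1) * s0 * s1 := by rw [b01]; group
      _ = (s2 * s3 * s2) * s1 * s2 * s0 * s1 := by rw [b12]; group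
      _ = s3 * s2 * s3 * s1 * s2 * s0 * s1 := by rw [b23]
  calc D * s3 * (s2 * s3 * s1 * s2 * s0 * s1) = D * (s3 * s2 * s3 * s1 * s2 * s0 * s1) := by group
    _ = D * (s2 * s1 * s0 * (s3 * s2 * s1 * s0)) := by rw [h]
    _ = Δ 5 := by rw [delta_eq, D]; group

lemma pre_delta : Pre (D * s3) (Δ 5) := by
  unfold Pre
  rw [← delta_fac, inv_mul_cancel_left]
  exact mul_mem (mul_mem (mul_mem (mul_mem (mul_mem p2 p3) p1) p2) p0) p1

lemma simple_of {f : B 5} (g : B 5) (hf : f ∈ Pos 5) (hg : g ∈ Pos 5) (h : f * g = D * s3) :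
    Simple f := by
  refine ⟨hf, ?_⟩
  unfold Pre
  have : f⁻¹ * Δ 5 = g * ((D * s3)⁻¹ * Δ 5) := by rw [← h]; group
  rw [this]
  exact mul_mem hg pre_delta

lemma lw {a b : B 5} (h : ∀ i : Fin 4, 1 ≤ en b i.castSucc i.succ →
    a * (σ (n := 5) i)⁻¹ ∈ Pos 5) : LeftWeighted a b := by
  intro i hi
  apply h i
  have h1 := en_le_of_pre hi (Fin.castSucc i) (Fin.succ i)
  have h2 : en (σ (n := 5) i) (Fin.castSucc i) (Fin.succ i) = 1 := by
    rw [en_σ]
    simp [wgen]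
  rw [h2] at h1
  exact h1

lemma fin4 (i : Fin 4) : i = 0 ∨ i = 1 ∨ i = 2 ∨ i = 3 := by
  revert i; decide

lemma st_D3 : ∀ i : Fin 4, 1 ≤ en (D * s3) i.castSucc i.succ → i = 0 ∨ i = 1 ∨ i = 3 := by
  simp only [D, en_mul, pm_mul, en_σ, pm_σ, wgen]
  decide
lemma st_13 : ∀ i : Fin 4, 1 ≤ en (s1 * s3) i.castSucc i.succ → i = 1 ∨ i = 3 := by
  simp only [en_mul, en_σ, pm_σ, wgen]
  decide
lemma st_03 : ∀ i : Fin 4, 1 ≤ en (s0 * s3) i.castSucc i.succ → i = 0 ∨ i = 3 := by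
  simp only [en_mul, en_σ, pm_σ, wgen]
  decide
lemma st_103 : ∀ i : Fin 4, 1 ≤ en (s1 * s0 * s3) i.castSucc i.succ → i = 1 ∨ i = 3 := by
  simp only [en_mul, pm_mul, en_σ, pm_σ, wgen]
  decide
lemma st_013 : ∀ i : Fin 4, 1 ≤ en (s0 * s1 * s3) i.castSucc i.succ → i = 0 ∨ i = 3 := by
  simp only [en_mul, pm_mul, en_σ, pm_σ, wgen]
  decide
lemma st_3 : ∀ i : Fin 4, 1 ≤ en s3 i.castSucc i.succ → i = 3 := by
  simp only [en_σ, wgen]
  decide
lemma st_1 : ∀ i : Fin 4, 1 ≤ en s1 i.castSucc i.succ → i = 1 := by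
  simp only [en_σ, wgen]
  decide
lemma st_0 : ∀ i : Fin 4, 1 ≤ en s0 i.castSucc i.succ → i = 0 := by
  simp only [en_σ, wgen]
  decide

lemma fin_of {a : B 5} {i : Fin 4} (c : B 5) (hc : c ∈ Pos 5) (h : c * σ (n := 5) i = a) :
    a * (σ (n := 5) i)⁻¹ ∈ Pos 5 := by
  rw [← h, mul_inv_cancel_right]
  exact hc

lemma fin_D3 (i : Fin 4) (h : i = 0 ∨ i = 1 ∨ i = 3) :
    D * s3 * (σ (n := 5) i)⁻¹ ∈ Pos 5 := by
  rcases h with rfl | rfl | rfl
  · refine fin_of (s0 * s1 * s3) (mul_mem (mul_mem p0 p1) p3) ?_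
    simp only [D, mul_assoc, c03]
  · refine fin_of (s1 * s0 * s3) (mul_mem (mul_mem p1 p0) p3) ?_
    rw [D_eq]
    simp only [mul_assoc, c13]
  · exact fin_of D pD rfl

lemma fin_13 (i : Fin 4) (h : i = 1 ∨ i = 3) : s1 * s3 * (σ (n := 5) i)⁻¹ ∈ Pos 5 := by
  rcases h with rfl | rfl
  · exact fin_of s3 p3 c13
  · exact fin_of s1 p1 rfl

lemma fin_03 (i : Fin 4) (h : i = 0 ∨ i = 3) : s0 * s3 * (σ (n := 5) i)⁻¹ ∈ Pos 5 := by
  rcases h with rfl | rfl
  · exact fin_of s3 p3 c03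
  · exact fin_of s0 p0 rfl

lemma fin_103 (i : Fin 4) (h : i = 0 ∨ i = 3) : s1 * s0 * s3 * (σ (n := 5) i)⁻¹ ∈ Pos 5 := by
  rcases h with rfl | rfl
  · refine fin_of (s1 * s3) (mul_mem p1 p3) ?_
    simp only [mul_assoc, c03]
  · exact fin_of (s1 * s0) (mul_mem p1 p0) rfl

lemma fin_013 (i : Fin 4) (h : i = 1 ∨ i = 3) : s0 * s1 * s3 * (σ (n := 5) i)⁻¹ ∈ Pos 5 := by
  rcases h with rfl | rfl
  · refine fin_of (s0 * s3) (mul_mem p0 p3) ?_
    simp only [mul_assoc, c13]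
  · exact fin_of (s0 * s1) (mul_mem p0 p1) rfl

lemma chain0 : l0.IsChain LeftWeighted := by
  simp only [l0, List.isChain_cons_cons, List.isChain_singleton, and_true]
  refine ⟨lw fun i h => fin_D3 i (st_D3 i h), lw fun i h => fin_D3 i (Or.inr (st_13 i h)),
    lw fun i h => fin_13 i (st_103 i h), lw fun i h => fin_103 i (st_013 i h),
    lw fun i h => fin_013 i (st_103 i h), lw fun i h => fin_103 i (Or.inr (st_3 i h))⟩

lemma chain1 : l1.IsChain LeftWeighted := by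
  simp only [l1, List.isChain_cons_cons, List.isChain_singleton, and_true]
  refine ⟨lw fun i h => fin_D3 i (st_D3 i h),
    lw fun i h => fin_D3 i ((st_03 i h).elim Or.inl (fun h => Or.inr (Or.inr h))),
    lw fun i h => fin_03 i (st_013 i h), lw fun i h => fin_013 i (st_103 i h),
    lw fun i h => fin_103 i (st_013 i h), lw fun i h => fin_013 i (Or.inr (st_3 i h))⟩

lemma chain11 : [s1, s1].IsChain LeftWeighted := by
  simp only [List.isChain_cons_cons, List.isChain_singleton, and_true]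
  refine lw fun i h => ?_
  rw [st_1 i h]
  exact fin_of 1 (one_mem _) (one_mul _)

lemma chain00 : [s0, s0].IsChain LeftWeighted := by
  simp only [List.isChain_cons_cons, List.isChain_singleton, and_true]
  refine lw fun i h => ?_
  rw [st_0 i h]
  exact fin_of 1 (one_mem _) (one_mul _)

lemma ne_of (f : B 5) (a b : Fin 5) (h1 : en f a b = 1) (h2 : en f 0 3 = 0) :
    f ≠ 1 ∧ f ≠ Δ 5 := by
  constructor
  · rintro rfl
    rw [en_one] at h1
    exact absurd h1 (by decide)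
  · rintro rfl
    rw [en_delta 0 3 (by decide)] at h2
    exact absurd h2 (by decide)

lemma good_D3 : Simple (D * s3) ∧ D * s3 ≠ 1 ∧ D * s3 ≠ Δ 5 := by
  refine ⟨simple_of 1 (mul_mem pD p3) (one_mem _) (mul_one _), ne_of _ 3 4 ?_ ?_⟩ <;>
  · simp only [D, en_mul, pm_mul, en_σ, pm_σ, wgen]
    decide
lemma good_13 : Simple (s1 * s3) ∧ s1 * s3 ≠ 1 ∧ s1 * s3 ≠ Δ 5 := by
  refine ⟨simple_of (s0 * s1) (mul_mem p1 p3) (mul_mem p0 p1) ?_, ne_of _ 3 4 ?_ ?_⟩
  · rw [D_eq]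
    simp only [mul_assoc, c03', c13]
  all_goals
    simp only [en_mul, en_σ, pm_σ, wgen]
    decide
lemma good_03 : Simple (s0 * s3) ∧ s0 * s3 ≠ 1 ∧ s0 * s3 ≠ Δ 5 := by
  refine ⟨simple_of (s1 * s0) (mul_mem p0 p3) (mul_mem p1 p0) ?_, ne_of _ 3 4 ?_ ?_⟩
  · simp only [D, mul_assoc, c13', c03]
  all_goals
    simp only [en_mul, en_σ, pm_σ, wgen]
    decide
lemma good_103 : Simple (s1 * s0 * s3) ∧ s1 * s0 * s3 ≠ 1 ∧ s1 * s0 * s3 ≠ Δ 5 := by
  refine ⟨simple_of s1 (mul_mem (mul_mem p1 p0) p3) p1 ?_, ne_of _ 3 4 ?_ ?_⟩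
  · rw [D_eq]
    simp only [mul_assoc, c13]
  all_goals
    simp only [en_mul, pm_mul, en_σ, pm_σ, wgen]
    decide
lemma good_013 : Simple (s0 * s1 * s3) ∧ s0 * s1 * s3 ≠ 1 ∧ s0 * s1 * s3 ≠ Δ 5 := by
  refine ⟨simple_of s0 (mul_mem (mul_mem p0 p1) p3) p0 ?_, ne_of _ 3 4 ?_ ?_⟩
  · simp only [D, mul_assoc, c03]
  all_goals
    simp only [en_mul, pm_mul, en_σ, pm_σ, wgen]
    decide
lemma good_3 : Simple s3 ∧ s3 ≠ 1 ∧ s3 ≠ Δ 5 := by
  refine ⟨simple_of D p3 pD D_s3, ne_of _ 3 4 ?_ ?_⟩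
  all_goals
    simp only [en_σ, wgen]
    decide
lemma good_1 : Simple s1 ∧ s1 ≠ 1 ∧ s1 ≠ Δ 5 := by
  refine ⟨simple_of (s0 * s1 * s3) p1 (mul_mem (mul_mem p0 p1) p3) ?_, ne_of _ 1 2 ?_ ?_⟩
  · rw [D_eq]
    simp only [mul_assoc]
  all_goals
    simp only [en_σ, wgen]
    decide
lemma good_0 : Simple s0 ∧ s0 ≠ 1 ∧ s0 ≠ Δ 5 := by
  refine ⟨simple_of (s1 * s0 * s3) p0 (mul_mem (mul_mem p1 p0) p3) ?_, ne_of _ 0 1 ?_ ?_⟩
  · simp only [D, mul_assoc]
  all_goals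
    simp only [en_σ, wgen]
    decide

lemma nf0 : IsNF x0 0 l0 := by
  refine ⟨by rw [zpow_zero, one_mul, x0_eq], ?_, chain0⟩
  intro s hs
  simp only [l0, List.mem_cons, List.not_mem_nil, or_false] at hs
  rcases hs with rfl | rfl | rfl | rfl | rfl | rfl | rfl
  exacts [good_D3, good_D3, good_13, good_103, good_013, good_103, good_3]

lemma nf1 : IsNF x1 0 l1 := by
  refine ⟨by rw [zpow_zero, one_mul, x1_eq], ?_, chain1⟩
  intro s hs
  simp only [l1, List.mem_cons, List.not_mem_nil, or_false] at hs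
  rcases hs with rfl | rfl | rfl | rfl | rfl | rfl | rfl
  exacts [good_D3, good_D3, good_03, good_013, good_103, good_013, good_3]

lemma nf11 : IsNF (s1 ^ 2) 0 [s1, s1] := by
  refine ⟨by rw [zpow_zero, one_mul, pow_two]; simp, ?_, chain11⟩
  intro s hs
  simp only [List.mem_cons, List.not_mem_nil, or_false, or_self] at hs
  rw [hs]
  exact good_1

lemma nf00 : IsNF (s0 ^ 2) 0 [s0, s0] := by
  refine ⟨by rw [zpow_zero, one_mul, pow_two]; simp, ?_, chain00⟩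
  intro s hs
  simp only [List.mem_cons, List.not_mem_nil, or_false, or_self] at hs
  rw [hs]
  exact good_0

/-! ### the preferred prefix -/

/-- the six positive words below `D` -/
def six (c : B 5) : Prop :=
  c = 1 ∨ c = s0 ∨ c = s1 ∨ c = s0 * s1 ∨ c = s1 * s0 ∨ c = D

/-- the crossing bound -/
def Bd (c : B 5) : Prop := ∀ a b : Fin 5, en c a b ≤ if a ≤ 2 ∧ b ≤ 2 ∧ a ≠ b then 1 else 0

lemma bd_mul {c : B 5} {i : Fin 4} (h : Bd (c * σ (n := 5) i)) : Bd c := by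
  intro a b
  have h1 := h a b
  rw [en_mul] at h1
  have h2 := en_nonneg (pos_σ i) (pm c a) (pm c b)
  omega

lemma six_mul {c : B 5} (i : Fin 4) (hc : six c) (h : Bd (c * σ (n := 5) i)) :
    six (c * σ (n := 5) i) := by
  rcases hc with rfl | rfl | rfl | rfl | rfl | rfl <;> rcases fin4 i with rfl | rfl | rfl | rfl
  -- 1
  · right; left; exact one_mul _
  · right; right; left; exact one_mul _
  · exfalso; revert h; simp only [Bd, en_mul, pm_mul, en_σ, pm_σ, en_one, pm_one, wgen]; decide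
  · exfalso; revert h; simp only [Bd, en_mul, pm_mul, en_σ, pm_σ, en_one, pm_one, wgen]; decide
  -- s0
  · exfalso; revert h; simp only [Bd, en_mul, pm_mul, en_σ, pm_σ, wgen]; decide
  · right; right; right; left; rfl
  · exfalso; revert h; simp only [Bd, en_mul, pm_mul, en_σ, pm_σ, wgen]; decide
  · exfalso; revert h; simp only [Bd, en_mul, pm_mul, en_σ, pm_σ, wgen]; decide
  -- s1
  · right; right; right; right; left; rfl
  · exfalso; revert h; simp only [Bd, en_mul, pm_mul, en_σ, pm_σ, wgen]; decide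
  · exfalso; revert h; simp only [Bd, en_mul, pm_mul, en_σ, pm_σ, wgen]; decide
  · exfalso; revert h; simp only [Bd, en_mul, pm_mul, en_σ, pm_σ, wgen]; decide
  -- s0 * s1
  · right; right; right; right; right; rfl
  · exfalso; revert h; simp only [Bd, en_mul, pm_mul, en_σ, pm_σ, wgen]; decide
  · exfalso; revert h; simp only [Bd, en_mul, pm_mul, en_σ, pm_σ, wgen]; decide
  · exfalso; revert h; simp only [Bd, en_mul, pm_mul, en_σ, pm_σ, wgen]; decide
  -- s1 * s0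
  · exfalso; revert h; simp only [Bd, en_mul, pm_mul, en_σ, pm_σ, wgen]; decide
  · right; right; right; right; right; rw [D_eq]
  · exfalso; revert h; simp only [Bd, en_mul, pm_mul, en_σ, pm_σ, wgen]; decide
  · exfalso; revert h; simp only [Bd, en_mul, pm_mul, en_σ, pm_σ, wgen]; decide
  -- D
  · exfalso; revert h; simp only [D, Bd, en_mul, pm_mul, en_σ, pm_σ, wgen]; decide
  · exfalso; revert h; simp only [D, Bd, en_mul, pm_mul, en_σ, pm_σ, wgen]; decide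
  · exfalso; revert h; simp only [D, Bd, en_mul, pm_mul, en_σ, pm_σ, wgen]; decide
  · exfalso; revert h; simp only [D, Bd, en_mul, pm_mul, en_σ, pm_σ, wgen]; decide

lemma six_of_bd {c : B 5} (hc : c ∈ Pos 5) : Bd c → six c := by
  induction hc using Submonoid.closure_induction_right with
  | one => intro _; exact Or.inl rfl
  | mul_right x hx y hy ih =>
    obtain ⟨i, rfl⟩ := hy
    intro h
    exact six_mul i (ih (bd_mul h)) h

lemma pre_D_of_six {c : B 5} (hc : six c) : Pre c D := by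
  unfold Pre
  rcases hc with rfl | rfl | rfl | rfl | rfl | rfl
  · rw [inv_one, one_mul]; exact pD
  · have : s0⁻¹ * D = s1 * s0 := by rw [D]; group
    rw [this]; exact mul_mem p1 p0
  · have : s1⁻¹ * D = s0 * s1 := by rw [D_eq]; group
    rw [this]; exact mul_mem p0 p1
  · have : (s0 * s1)⁻¹ * D = s0 := by rw [D]; group
    rw [this]; exact p0
  · have : (s1 * s0)⁻¹ * D = s1 := by rw [D_eq]; group
    rw [this]; exact p1
  · rw [inv_mul_cancel]; exact one_mem _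

lemma gcd_D : IsGcd (D * s3) (s3⁻¹ * Δ 5) D := by
  refine ⟨pD, ?_, ?_, ?_⟩
  · unfold Pre
    rw [inv_mul_cancel_left]
    exact p3
  · unfold Pre
    have : D⁻¹ * (s3⁻¹ * Δ 5) = (D * s3)⁻¹ * Δ 5 := by rw [← D_s3]; group
    rw [this]
    exact pre_delta
  · intro c hc h1 h2
    apply pre_D_of_six
    apply six_of_bd hc
    intro a b
    have e1 := en_le_of_pre h1 a b
    have e2 := en_le_of_pre h2 a b
    have e3 : ∀ a b : Fin 5, min (en (D * s3) a b) (en (s3⁻¹ * Δ 5) a b) ≤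
        if a ≤ 2 ∧ b ≤ 2 ∧ a ≠ b then 1 else 0 := by
      have : s3⁻¹ * Δ 5 = D * (s2 * s3 * s1 * s2 * s0 * s1) := by
        rw [← delta_fac, ← D_s3]; group
      rw [this]
      simp only [D, en_mul, pm_mul, en_σ, pm_σ, wgen]
      decide
    exact (le_min e1 e2).trans (e3 a b)

lemma pp0 : IsPreferredPrefix x0 D := by
  refine ⟨0, l0, nf0, Or.inr ⟨D * s3, s3, rfl, rfl, ?_⟩⟩
  rw [neg_zero, zpow_zero, one_mul, mul_one]
  exact gcd_D

lemma pp1 : IsPreferredPrefix x1 D := by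
  refine ⟨0, l1, nf1, Or.inr ⟨D * s3, s3, rfl, rfl, ?_⟩⟩
  rw [neg_zero, zpow_zero, one_mul, mul_one]
  exact gcd_D

end Pool.Agent.H926R3.Br
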