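import Pool.Agent.H926R3.Br.Twist
import Pool.Agent.H926R3.Br.NF

/-!
# The action of the model braid
-/

set_option autoImplicit false
set_option linter.unusedSimpArgs false

namespace Pool.Agent.H926R3.Br

lemma a00 : ar s0 (X 0) = X 0 * X 1 * (X 0)⁻¹ := by
  rw [ar_σ]; exact artin_lo (n := 5) 0
lemma a01 : ar s0 (X 1) = X 0 := by
  rw [ar_σ]; exact artin_hi (n := 5) 0
lemma a02 : ar s0 (X 2) = X 2 := by
  rw [ar_σ]; exact artin_other (n := 5) 0 2 (by decide) (by decide)
lemma a03 : ar s0 (X 3) = X 3 := by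
  rw [ar_σ]; exact artin_other (n := 5) 0 3 (by decide) (by decide)
lemma a04 : ar s0 (X 4) = X 4 := by
  rw [ar_σ]; exact artin_other (n := 5) 0 4 (by decide) (by decide)
lemma a10 : ar s1 (X 0) = X 0 := by
  rw [ar_σ]; exact artin_other (n := 5) 1 0 (by decide) (by decide)
lemma a11 : ar s1 (X 1) = X 1 * X 2 * (X 1)⁻¹ := by
  rw [ar_σ]; exact artin_lo (n := 5) 1
lemma a12 : ar s1 (X 2) = X 1 := by
  rw [ar_σ]; exact artin_hi (n := 5) 1
lemma a13 : ar s1 (X 3) = X 3 := by
  rw [ar_σ]; exact artin_other (n := 5) 1 3 (by decide) (by decide)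
lemma a14 : ar s1 (X 4) = X 4 := by
  rw [ar_σ]; exact artin_other (n := 5) 1 4 (by decide) (by decide)
lemma a30 : ar s3 (X 0) = X 0 := by
  rw [ar_σ]; exact artin_other (n := 5) 3 0 (by decide) (by decide)
lemma a31 : ar s3 (X 1) = X 1 := by
  rw [ar_σ]; exact artin_other (n := 5) 3 1 (by decide) (by decide)
lemma a32 : ar s3 (X 2) = X 2 := by
  rw [ar_σ]; exact artin_other (n := 5) 3 2 (by decide) (by decide)
lemma a33 : ar s3 (X 3) = X 3 * X 4 * (X 3)⁻¹ := by
  rw [ar_σ]; exact artin_lo (n := 5) 3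
lemma a34 : ar s3 (X 4) = X 3 := by
  rw [ar_σ]; exact artin_hi (n := 5) 3

lemma d0 : ar D (X 0) = X 0 * X 1 * X 2 * (X 1)⁻¹ * (X 0)⁻¹ := by
  rw [D, ar_mul, ar_mul]
  simp only [a00, a01, a02, a10, a11, a12, map_mul, map_inv]
  group
lemma d1 : ar D (X 1) = X 0 * X 1 * (X 0)⁻¹ := by
  rw [D, ar_mul, ar_mul]
  simp only [a00, a01, a02, a10, a11, a12]
lemma d2 : ar D (X 2) = X 0 := by
  rw [D, ar_mul, ar_mul]
  simp only [a00, a01, a02, a10, a11, a12]
lemma d3 : ar D (X 3) = X 3 := by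
  rw [D, ar_mul, ar_mul]
  simp only [a03, a13]
lemma d4 : ar D (X 4) = X 4 := by
  rw [D, ar_mul, ar_mul]
  simp only [a04, a14]

lemma arT_D2 (w : F) : ar (D * D) w = T 1 0 0 w := by
  have h : (ar (D * D)).toMonoidHom = T 1 0 0 := by
    apply FreeGroup.ext_hom
    intro k
    change ar (D * D) (X k) = T 1 0 0 (X k)
    fin_cases k
    · change ar (D * D) (X 0) = T 1 0 0 (X 0)
      rw [ar_mul, d0, T_0, cj]
      simp only [map_mul, map_inv, d0, d1, d2]
      group
    · change ar (D * D) (X 1) = T 1 0 0 (X 1)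
      rw [ar_mul, d1, T_1, cj]
      simp only [map_mul, map_inv, d0, d1, d2]
      group
    · change ar (D * D) (X 2) = T 1 0 0 (X 2)
      rw [ar_mul, d2, T_2, cj, d0]
      group
    · change ar (D * D) (X 3) = T 1 0 0 (X 3)
      rw [ar_mul, d3, T_3, cj, d3]
      group
    · change ar (D * D) (X 4) = T 1 0 0 (X 4)
      rw [ar_mul, d4, T_4, cj, d4]
      group
  exact DFunLike.congr_fun h w

lemma arT_02 (w : F) : ar (s0 * s0) w = T 0 1 0 w := by
  have h : (ar (s0 * s0)).toMonoidHom = T 0 1 0 := by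
    apply FreeGroup.ext_hom
    intro k
    change ar (s0 * s0) (X k) = T 0 1 0 (X k)
    fin_cases k
    · change ar (s0 * s0) (X 0) = T 0 1 0 (X 0)
      rw [ar_mul, a00, T_0, cj]
      simp only [map_mul, map_inv, a00, a01]
      group
    · change ar (s0 * s0) (X 1) = T 0 1 0 (X 1)
      rw [ar_mul, a01, a00, T_1, cj]
      group
    · change ar (s0 * s0) (X 2) = T 0 1 0 (X 2)
      rw [ar_mul, a02, a02, T_2, cj]
      group
    · change ar (s0 * s0) (X 3) = T 0 1 0 (X 3)
      rw [ar_mul, a03, a03, T_3, cj]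
      group
    · change ar (s0 * s0) (X 4) = T 0 1 0 (X 4)
      rw [ar_mul, a04, a04, T_4, cj]
      group
  exact DFunLike.congr_fun h w

lemma arT_32 (w : F) : ar (s3 * s3) w = T 0 0 1 w := by
  have h : (ar (s3 * s3)).toMonoidHom = T 0 0 1 := by
    apply FreeGroup.ext_hom
    intro k
    change ar (s3 * s3) (X k) = T 0 0 1 (X k)
    fin_cases k
    · change ar (s3 * s3) (X 0) = T 0 0 1 (X 0)
      rw [ar_mul, a30, a30, T_0, cj]
      group
    · change ar (s3 * s3) (X 1) = T 0 0 1 (X 1)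
      rw [ar_mul, a31, a31, T_1, cj]
      group
    · change ar (s3 * s3) (X 2) = T 0 0 1 (X 2)
      rw [ar_mul, a32, a32, T_2, cj]
      group
    · change ar (s3 * s3) (X 3) = T 0 0 1 (X 3)
      rw [ar_mul, a33, T_3, cj]
      simp only [map_mul, map_inv, a33, a34]
      group
    · change ar (s3 * s3) (X 4) = T 0 0 1 (X 4)
      rw [ar_mul, a34, a33, T_4, cj]
      group
  exact DFunLike.congr_fun h w

/-- composition of multitwists -/
lemma T_comp (p q r p' q' r' : ℕ) (w : F) :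
    T p q r (T p' q' r' w) = T (p + p') (q + q') (r + r') w := by
  have h : (T p q r).comp (T p' q' r') = T (p + p') (q + q') (r + r') := by
    apply FreeGroup.ext_hom
    intro k
    rw [MonoidHom.comp_apply]
    fin_cases k
    · change T p q r (T p' q' r' (X 0)) = T (p + p') (q + q') (r + r') (X 0)
      rw [T_0, T_0, map_cj, map_mul, map_pow, map_pow, T_A, T_B, T_0, cj_pow]
      simp only [cj, pow_add]
      have hB := (Commute.refl wB).pow_pow p p'
      have hA := (Commute.refl wA).pow_pow q q'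
      rw [hB.eq, hA.eq]
      group
    · change T p q r (T p' q' r' (X 1)) = T (p + p') (q + q') (r + r') (X 1)
      rw [T_1, T_1, map_cj, map_mul, map_pow, map_pow, T_A, T_B, T_1, cj_pow]
      simp only [cj, pow_add]
      have hB := (Commute.refl wB).pow_pow p p'
      have hA := (Commute.refl wA).pow_pow q q'
      rw [hB.eq, hA.eq]
      group
    · change T p q r (T p' q' r' (X 2)) = T (p + p') (q + q') (r + r') (X 2)
      rw [T_2, T_2, map_cj, map_pow, T_B, T_2]
      simp only [cj, pow_add]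
      have hB := (Commute.refl wB).pow_pow p p'
      rw [hB.eq]
      group
    · change T p q r (T p' q' r' (X 3)) = T (p + p') (q + q') (r + r') (X 3)
      rw [T_3, T_3, map_cj, map_pow, T_E, T_3]
      simp only [cj, pow_add]
      have hB := (Commute.refl wE).pow_pow r r'
      rw [hB.eq]
      group
    · change T p q r (T p' q' r' (X 4)) = T (p + p') (q + q') (r + r') (X 4)
      rw [T_4, T_4, map_cj, map_pow, T_E, T_4]
      simp only [cj, pow_add]
      have hB := (Commute.refl wE).pow_pow r r'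
      rw [hB.eq]
      group
  exact DFunLike.congr_fun h w

lemma xh_sq : xh * xh = (D * D) * (D * D) * (D * D) * (D * D) * (s0 * s0) *
    (s3 * s3) * (s3 * s3) * (s3 * s3) * (s3 * s3) * (s3 * s3) * (s3 * s3) * (s3 * s3) := by
  have h0 : Commute (D ^ 4) s0 := by
    have h0 : Commute (D * D) s0 := D2_s0
    have : D ^ 4 = (D * D) * (D * D) := by simp only [pow_succ, pow_zero, one_mul, mul_assoc]
    rw [this]
    exact h0.mul_left h0
  have h3 : Commute (s3 ^ 7) (D ^ 4) := (show Commute (s3 ^ 7) D from s3_pow_commD).pow_right 4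
  have h30 : Commute (s3 ^ 7) s0 := s3_pow_comm0
  calc xh * xh = D ^ 4 * s0 * (s3 ^ 7 * D ^ 4) * s0 * s3 ^ 7 := by simp only [xh, mul_assoc]
    _ = D ^ 4 * (s0 * D ^ 4) * (s3 ^ 7 * s0) * s3 ^ 7 := by
        rw [h3.eq]; simp only [mul_assoc]
    _ = D ^ 4 * D ^ 4 * s0 * s0 * s3 ^ 7 * s3 ^ 7 := by
        rw [← h0.eq, h30.eq]; simp only [mul_assoc]
    _ = _ := by simp only [pow_succ, pow_zero, one_mul, mul_assoc]

lemma ar_xh_sq (w : F) : ar (xh * xh) w = T 4 1 7 w := by
  rw [xh_sq]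
  simp only [ar_mul _ (D * D), ar_mul _ (s0 * s0), ar_mul _ (s3 * s3)]
  simp only [arT_D2, arT_02, arT_32, T_comp]

lemma ar_pow (y : B 5) (p q r : ℕ) (h : ∀ w, ar y w = T p q r w) (m : ℕ) (w : F) :
    ar (y ^ (m + 1)) w = T ((m + 1) * p) ((m + 1) * q) ((m + 1) * r) w := by
  induction m generalizing w with
  | zero => simp only [zero_add, pow_one, one_mul]; exact h w
  | succ m ih =>
    rw [pow_succ, ar_mul, ih, h, T_comp]
    congr 2 <;> ring

lemma ar_pow' (y : B 5) (p q r : ℕ) (h : ∀ w, ar y w = T p q r w) (M : ℕ) (hM : 1 ≤ M) (w : F) :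
    ar (y ^ M) w = T (M * p) (M * q) (M * r) w := by
  obtain ⟨m, rfl⟩ : ∃ m, M = m + 1 := ⟨M - 1, by omega⟩
  exact ar_pow y p q r h m w

end Pool.Agent.H926R3.Br
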