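import Mathlib

/-!
# Conjugacy classes of a free product that are fixed by a free product of endomorphisms
-/

set_option autoImplicit false
set_option linter.unusedSectionVars false

namespace Pool.Agent.H926R3.Br.FP

open Monoid Monoid.CoprodI

variable {ι : Type} [DecidableEq ι] {G : ι → Type} [∀ i, Group (G i)] [∀ i, DecidableEq (G i)]

/-- the syllables of an element of a free product -/
def syl (x : CoprodI G) : List (Σ i, G i) := (Word.equiv x).toList

lemma syl_prod (w : Word G) : syl w.prod = w.toList := by
  unfold syl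
  rw [show Word.equiv w.prod = w from Word.equiv.apply_symm_apply w]

lemma syl_ne {i j : ι} (w : NeWord G i j) : syl w.prod = w.toList := syl_prod _

lemma prod_syl (x : CoprodI G) : (Word.equiv x).prod = x := Word.equiv.symm_apply_apply x

/-- inversion of a syllable -/
def sinv (s : Σ i, G i) : Σ i, G i := ⟨s.1, s.2⁻¹⟩

lemma toList_inv {i j : ι} (w : NeWord G i j) : w.inv.toList = w.toList.reverse.map sinv := by
  induction w with
  | singleton x h => rfl
  | append w₁ h w₂ ih1 ih2 =>
    change w₂.inv.toList ++ w₁.inv.toList = _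
    rw [ih1, ih2]
    simp

lemma eq_one_or (x : CoprodI G) : x = 1 ∨ ∃ (i j : ι) (w : NeWord G i j), w.prod = x := by
  by_cases h : Word.equiv x = Word.empty
  · left
    rw [← prod_syl x, h, Word.prod_empty]
  · right
    obtain ⟨i, j, w, hw⟩ := NeWord.of_word _ h
    refine ⟨i, j, w, ?_⟩
    rw [← prod_syl x, ← hw]
    rfl

lemma syl_one : syl (1 : CoprodI G) = [] := by
  have := syl_prod (Word.empty : Word G)
  rw [Word.prod_empty] at this
  exact this

lemma syl_inv (x : CoprodI G) : syl x⁻¹ = (syl x).reverse.map sinv := by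
  rcases eq_one_or x with rfl | ⟨i, j, w, rfl⟩
  · rw [inv_one, syl_one]; rfl
  · rw [← NeWord.inv_prod, syl_ne, syl_ne, toList_inv]

lemma countP_inv (p : (Σ i, G i) → Bool) (x : CoprodI G) :
    (syl x⁻¹).countP p = (syl x).countP (p ∘ sinv) := by
  rw [syl_inv, List.countP_map, List.countP_reverse]

lemma rcons_toList {i : ι} (q : Word.Pair G i) :
    (Word.rcons q).toList = if q.head = 1 then q.tail.toList else ⟨i, q.head⟩ :: q.tail.toList := by
  unfold Word.rcons
  split_ifs with h
  · rfl
  · rfl

lemma syl_of_mul {i : ι} (g : G i) (x : CoprodI G) :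
    ∃ l : List (Σ i, G i), (syl (CoprodI.of g * x) = l ∨ ∃ a, syl (CoprodI.of g * x) = a :: l) ∧
      (syl x = l ∨ ∃ a, syl x = a :: l) := by
  refine ⟨(Word.equivPair i (Word.equiv x)).tail.toList, ?_, ?_⟩
  · have h : Word.equiv (CoprodI.of g * x) = CoprodI.of g • Word.equiv x := by
      change (CoprodI.of g * x) • (Word.empty : Word G) =
        CoprodI.of g • (x • (Word.empty : Word G))
      rw [mul_smul]
    unfold syl
    rw [h, Word.of_smul_def, rcons_toList]
    split_ifs
    · exact Or.inl rfl
    · exact Or.inr ⟨_, rfl⟩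
  · have h : Word.equiv x = Word.rcons (Word.equivPair i (Word.equiv x)) := by
      rw [← Word.equivPair_symm, Equiv.symm_apply_apply]
    have h2 : syl x = (Word.rcons (Word.equivPair i (Word.equiv x))).toList := by
      rw [← h]
      rfl
    rw [h2, rcons_toList]
    split_ifs
    · exact Or.inl rfl
    · exact Or.inr ⟨_, rfl⟩

lemma count_of_mul (p : (Σ i, G i) → Bool) {i : ι} (g : G i) (x : CoprodI G) :
    (syl (CoprodI.of g * x)).countP p ≤ (syl x).countP p + 1 := by
  obtain ⟨l, h1, h2⟩ := syl_of_mul g x
  have h3 : l.countP p ≤ (syl x).countP p := by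
    rcases h2 with h2 | ⟨a, h2⟩ <;> rw [h2]
    rw [List.countP_cons]
    omega
  rcases h1 with h1 | ⟨a, h1⟩ <;> rw [h1]
  · omega
  · rw [List.countP_cons]
    split_ifs <;> omega

lemma len_of_mul {i : ι} (g : G i) (x : CoprodI G) :
    (syl (CoprodI.of g * x)).length ≤ (syl x).length + 1 := by
  obtain ⟨l, h1, h2⟩ := syl_of_mul g x
  have h3 : l.length ≤ (syl x).length := by
    rcases h2 with h2 | ⟨a, h2⟩ <;> rw [h2]
    rw [List.length_cons]
    omega
  rcases h1 with h1 | ⟨a, h1⟩ <;> rw [h1]
  · omega
  · rw [List.length_cons]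
    omega

lemma count_word_mul (p : (Σ i, G i) → Bool) (w : Word G) (x : CoprodI G) :
    (syl (w.prod * x)).countP p ≤ (syl x).countP p + w.toList.length := by
  induction w using Word.consRecOn generalizing x with
  | empty => rw [Word.prod_empty, one_mul]; omega
  | cons i m w h1 h2 ih =>
    rw [Word.prod_cons, mul_assoc]
    have := count_of_mul p m (w.prod * x)
    have := ih x
    change _ ≤ _ + (w.toList.length + 1)
    omega

lemma len_word_mul (w : Word G) (x : CoprodI G) :
    (syl (w.prod * x)).length ≤ (syl x).length + w.toList.length := by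
  induction w using Word.consRecOn generalizing x with
  | empty => rw [Word.prod_empty, one_mul]; omega
  | cons i m w h1 h2 ih =>
    rw [Word.prod_cons, mul_assoc]
    have := len_of_mul m (w.prod * x)
    have := ih x
    change _ ≤ _ + (w.toList.length + 1)
    omega

lemma count_mul (p : (Σ i, G i) → Bool) (y x : CoprodI G) :
    (syl (y * x)).countP p ≤ (syl x).countP p + (syl y).length := by
  have := count_word_mul p (Word.equiv y) x
  rwa [prod_syl] at this

lemma len_mul (y x : CoprodI G) : (syl (y * x)).length ≤ (syl x).length + (syl y).length := by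
  have := len_word_mul (Word.equiv y) x
  rwa [prod_syl] at this

lemma count_mul_right (p : (Σ i, G i) → Bool) (x y : CoprodI G) :
    (syl (x * y)).countP p ≤ (syl x).countP p + (syl y⁻¹).length := by
  have h := count_mul (p ∘ sinv) y⁻¹ x⁻¹
  have e : x * y = (y⁻¹ * x⁻¹)⁻¹ := by group
  rw [e, countP_inv]
  have h2 := countP_inv (p ∘ sinv) x
  have h3 : (p ∘ sinv) ∘ sinv = p := by
    funext s
    simp [sinv]
  rw [h3] at h2
  rw [h2] at h
  exact h

/-- powers of a cyclically reduced word -/
def npow {i j : ι} (w : NeWord G i j) (h : j ≠ i) : ℕ → NeWord G i j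
  | 0 => w
  | n + 1 => NeWord.append (npow w h n) h w

lemma npow_prod {i j : ι} (w : NeWord G i j) (h : j ≠ i) (n : ℕ) :
    (npow w h n).prod = w.prod ^ (n + 1) := by
  induction n with
  | zero => simp [npow]
  | succ n ih => rw [npow, NeWord.append_prod, ih, ← pow_succ]

lemma npow_count (p : (Σ i, G i) → Bool) {i j : ι} (w : NeWord G i j) (h : j ≠ i) (n : ℕ) :
    (npow w h n).toList.countP p = (n + 1) * w.toList.countP p := by
  induction n with
  | zero => simp [npow]
  | succ n ih =>
    rw [npow, NeWord.toList, List.countP_append, ih]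
    ring

/-- conjugate cyclically reduced words have the same syllables -/
lemma count_le {i j i' j' : ι} (w : NeWord G i j) (h : j ≠ i) (w' : NeWord G i' j')
    (h' : j' ≠ i') (hc : IsConj w.prod w'.prod) (p : (Σ i, G i) → Bool) :
    w'.toList.countP p ≤ w.toList.countP p := by
  obtain ⟨c, hc⟩ := isConj_iff.1 hc
  by_contra hlt
  push Not at hlt
  set N := (syl c).length + (syl c⁻¹⁻¹).length with hN
  have h1 : w'.prod ^ (N + 1) = c * (w.prod ^ (N + 1) * c⁻¹) := by
    rw [← hc, conj_pow]
    group
  have h2 := npow_count p w' h' N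
  rw [← syl_ne, npow_prod, h1] at h2
  have h3 := count_mul p c (w.prod ^ (N + 1) * c⁻¹)
  have h4 := count_mul_right p (w.prod ^ (N + 1)) c⁻¹
  have h5 := npow_count p w h N
  rw [← syl_ne, npow_prod] at h5
  nlinarith

/-- image of a word under a family of injective homomorphisms -/
def mapNe (τ : ∀ i, G i →* G i) (hτ : ∀ i, Function.Injective (τ i)) :
    ∀ {i j : ι}, NeWord G i j → NeWord G i j
  | _, _, NeWord.singleton x h =>
    NeWord.singleton (τ _ x) (fun e => h (hτ _ (e.trans (map_one (τ _)).symm)))
  | _, _, NeWord.append w₁ h w₂ => NeWord.append (mapNe τ hτ w₁) h (mapNe τ hτ w₂)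

/-- the free product of endomorphisms -/
def fmap (τ : ∀ i, G i →* G i) : CoprodI G →* CoprodI G :=
  CoprodI.lift fun i => CoprodI.of.comp (τ i)

lemma mapNe_prod (τ : ∀ i, G i →* G i) (hτ : ∀ i, Function.Injective (τ i)) {i j : ι}
    (w : NeWord G i j) : (mapNe τ hτ w).prod = fmap τ w.prod := by
  induction w with
  | singleton x h => simp [mapNe, fmap]
  | append w₁ h w₂ ih1 ih2 => rw [mapNe, NeWord.append_prod, NeWord.append_prod, ih1, ih2, map_mul]

lemma mapNe_toList (τ : ∀ i, G i →* G i) (hτ : ∀ i, Function.Injective (τ i)) {i j : ι}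
    (w : NeWord G i j) :
    (mapNe τ hτ w).toList = w.toList.map fun s => ⟨s.1, τ s.1 s.2⟩ := by
  induction w with
  | singleton x h => rfl
  | append w₁ h w₂ ih1 ih2 => rw [mapNe, NeWord.toList, ih1, ih2, NeWord.toList, List.map_append]

/-- iterated images of a word -/
def mapNeIt (τ : ∀ i, G i →* G i) (hτ : ∀ i, Function.Injective (τ i)) {i j : ι}
    (w : NeWord G i j) (m : ℕ) : NeWord G i j := (mapNe τ hτ)^[m] w

lemma mapNeIt_prod (τ : ∀ i, G i →* G i) (hτ : ∀ i, Function.Injective (τ i)) {i j : ι}
    (w : NeWord G i j) (m : ℕ) : (mapNeIt τ hτ w m).prod = (fmap τ)^[m] w.prod := by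
  induction m with
  | zero => rfl
  | succ m ih =>
    unfold mapNeIt at ih ⊢
    rw [Function.iterate_succ_apply', mapNe_prod, ih, Function.iterate_succ_apply']

lemma mapNeIt_toList (τ : ∀ i, G i →* G i) (hτ : ∀ i, Function.Injective (τ i)) {i j : ι}
    (w : NeWord G i j) (m : ℕ) :
    (mapNeIt τ hτ w m).toList = w.toList.map fun s => ⟨s.1, (τ s.1)^[m] s.2⟩ := by
  induction m with
  | zero => simp [mapNeIt]
  | succ m ih =>
    unfold mapNeIt at ih ⊢
    rw [Function.iterate_succ_apply', mapNe_toList, ih, List.map_map]
    congr 1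
    funext s
    simp only [Function.comp_apply, Function.iterate_succ_apply']

/-- every element is conjugate into a factor or to a cyclically reduced word -/
lemma exists_cyc [Nonempty ι] (d : CoprodI G) :
    (∃ (i : ι) (g : G i), IsConj d (CoprodI.of g)) ∨
      ∃ (i j : ι) (_ : j ≠ i) (w : NeWord G i j), IsConj d w.prod := by
  -- a conjugate with the least number of syllables
  obtain ⟨x, hx, hmin⟩ : ∃ x, IsConj d x ∧ ∀ y, IsConj d y → (syl x).length ≤ (syl y).length := by
    have hne : ({n | ∃ x, IsConj d x ∧ (syl x).length = n} : Set ℕ).Nonempty :=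
      ⟨_, d, IsConj.refl d, rfl⟩
    obtain ⟨x, hx, hx'⟩ := Nat.sInf_mem hne
    refine ⟨x, hx, fun y hy => ?_⟩
    rw [hx']
    exact Nat.sInf_le ⟨y, hy, rfl⟩
  rcases eq_one_or x with rfl | ⟨i, j, w, rfl⟩
  · left
    exact ⟨Classical.arbitrary ι, 1, by rwa [map_one]⟩
  by_cases hij : j = i
  · subst hij
    left
    -- the word has the same first and last index
    have key : ∀ {i j : ι} (w : NeWord G i j), i = j →
        (∃ g : G i, w.prod = CoprodI.of g) ∨
        ∃ (g : G i) (h : G j) (u : Word G), w.prod = CoprodI.of g * u.prod * CoprodI.of h ∧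
          w.toList.length = u.toList.length + 2 := by
      intro i j w hij
      have h1 := w.toList_head?
      have h2 := w.toList_getLast?
      have h3 : w.prod = (w.toList.map fun s => CoprodI.of s.2).prod := rfl
      have h4 := w.toWord.ne_one
      have h5 := w.toWord.chain_ne
      change ∀ l ∈ w.toList, _ at h4
      change w.toList.IsChain _ at h5
      generalize w.toList = L at *
      match L with
      | [] => simp at h1
      | [a] =>
        left
        simp only [List.head?_cons, Option.some.injEq] at h1
        subst h1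
        exact ⟨w.head, by rw [h3]; simp⟩
      | a :: b :: L =>
        right
        simp only [List.head?_cons, Option.some.injEq] at h1
        subst h1
        have hne : b :: L ≠ [] := List.cons_ne_nil _ _
        rw [List.getLast?_cons_cons, List.getLast?_eq_some_getLast hne, Option.some.injEq] at h2
        have h6 := List.dropLast_append_getLast hne
        rw [h2] at h6
        refine ⟨w.head, w.last, ⟨(b :: L).dropLast, ?_, ?_⟩, ?_, ?_⟩
        · intro l hl
          exact h4 l (List.mem_cons_of_mem _ (List.mem_of_mem_dropLast hl))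
        · have h7 : (b :: L).IsChain (fun l l' : Σ i, G i => l.1 ≠ l'.1) := h5.tail
          rw [← h6] at h7
          exact (List.isChain_append.1 h7).1
        · rw [h3, Word.prod]
          conv_lhs => rw [← h6]
          simp [mul_assoc]
        · have := List.length_dropLast (xs := b :: L)
          simp only [List.length_cons] at this ⊢
          omega
    rcases key w rfl with ⟨g, hg⟩ | ⟨g, h, u, hu, hl⟩
    · exact ⟨j, g, by rwa [hg] at hx⟩
    · exfalso
      have hc : IsConj w.prod (CoprodI.of (h * g) * u.prod) := by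
        rw [hu]
        rw [isConj_iff]
        refine ⟨CoprodI.of h, ?_⟩
        rw [map_mul]
        group
      have h1 := hmin _ (hx.trans hc)
      have h2 := len_of_mul (h * g) u.prod
      rw [syl_prod] at h2
      rw [syl_ne] at h1
      omega
  · right
    exact ⟨i, j, hij, w, hx⟩

/-- Main result on free products: a conjugacy class fixed by all iterates of a free product of
injective endomorphisms is the class of an element of a factor or of a product of syllables that
are periodic. -/
theorem fixed_class [Nonempty ι] (τ : ∀ i, G i →* G i) (hτ : ∀ i, Function.Injective (τ i))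
    (d : CoprodI G) (hd : ∀ m : ℕ, IsConj ((fmap τ)^[m] d) d)
    (S : ∀ i, Subgroup (G i)) (hS : ∀ i g, (∃ N : ℕ, 1 ≤ N ∧ (τ i)^[N] g = g) → g ∈ S i) :
    (∃ (i : ι) (g : G i), IsConj d (CoprodI.of g)) ∨
      ∃ y ∈ ⨆ i, (S i).map (CoprodI.of : G i →* CoprodI G), IsConj d y := by
  rcases exists_cyc d with h | ⟨i, j, hij, w, hw⟩
  · exact Or.inl h
  right
  have hconj : ∀ m : ℕ, IsConj w.prod (mapNeIt τ hτ w m).prod := by
    intro m
    rw [mapNeIt_prod]
    have h1 : IsConj ((fmap τ)^[m] d) ((fmap τ)^[m] w.prod) := by
      have : ∀ m : ℕ, IsConj ((fmap τ)^[m] d) ((fmap τ)^[m] w.prod) := by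
        intro m
        induction m with
        | zero => exact hw
        | succ m ih =>
          rw [Function.iterate_succ_apply', Function.iterate_succ_apply']
          obtain ⟨c, hc⟩ := isConj_iff.1 ih
          rw [isConj_iff]
          refine ⟨fmap τ c, ?_⟩
          rw [← hc]
          simp
      exact this m
    exact (hw.symm.trans (hd m).symm).trans h1
  have hper : ∀ s ∈ w.toList, ∃ N : ℕ, 1 ≤ N ∧ (τ s.1)^[N] s.2 = s.2 := by
    intro s hs
    have hmem : ∀ m : ℕ, (⟨s.1, (τ s.1)^[m] s.2⟩ : Σ i, G i) ∈ w.toList := by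
      intro m
      have h1 := count_le w hij (mapNeIt τ hτ w m) hij (hconj m)
        (fun t => decide (t = ⟨s.1, (τ s.1)^[m] s.2⟩))
      have h2 : 0 < (mapNeIt τ hτ w m).toList.countP
          (fun t => decide (t = ⟨s.1, (τ s.1)^[m] s.2⟩)) := by
        rw [List.countP_pos_iff]
        refine ⟨_, ?_, decide_eq_true rfl⟩
        rw [mapNeIt_toList]
        exact List.mem_map.2 ⟨s, hs, rfl⟩
      have h3 := lt_of_lt_of_le h2 h1
      rw [List.countP_pos_iff] at h3
      obtain ⟨t, ht, ht'⟩ := h3
      rw [decide_eq_true_iff] at ht'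
      rwa [ht'] at ht
    -- pigeonhole
    have hfin : ({t | t ∈ w.toList} : Set (Σ i, G i)).Finite := by
      have : ({t | t ∈ w.toList} : Set (Σ i, G i)) = (w.toList.toFinset : Set (Σ i, G i)) := by
        ext t; simp
      rw [this]
      exact Finset.finite_toSet _
    obtain ⟨a, -, b, -, hab, he⟩ := Set.infinite_univ.exists_ne_map_eq_of_mapsTo
      (f := fun m : ℕ => (⟨s.1, (τ s.1)^[m] s.2⟩ : Σ i, G i)) (fun m _ => hmem m) hfin
    simp only [Sigma.mk.injEq, heq_eq_eq, true_and] at he
    have aux : ∀ a b : ℕ, a < b → (τ s.1)^[a] s.2 = (τ s.1)^[b] s.2 →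
        ∃ N : ℕ, 1 ≤ N ∧ (τ s.1)^[N] s.2 = s.2 := by
      intro a b hab he
      refine ⟨b - a, by omega, ?_⟩
      apply ((hτ s.1).iterate a)
      rw [← Function.iterate_add_apply, show a + (b - a) = b by omega, he]
    rcases lt_or_gt_of_ne hab with h | h
    · exact aux a b h he
    · exact aux b a h he.symm
  refine ⟨w.prod, ?_, hw⟩
  have h3 : w.prod = (w.toList.map fun s => CoprodI.of s.2).prod := rfl
  rw [h3]
  apply Subgroup.list_prod_mem
  intro x hx
  obtain ⟨s, hs, rfl⟩ := List.mem_map.1 hx
  exact Subgroup.mem_iSup_of_mem s.1 (Subgroup.mem_map_of_mem _ (hS s.1 s.2 (hper s hs)))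

/-! ### centralisers -/

lemma equiv_mul {i : ι} (g : G i) (x : CoprodI G) :
    Word.equiv (CoprodI.of g * x) = CoprodI.of g • Word.equiv x := by
  change (CoprodI.of g * x) • (Word.empty : Word G) = CoprodI.of g • (x • (Word.empty : Word G))
  rw [mul_smul]

lemma equiv_prod (w : Word G) : Word.equiv w.prod = w := Word.equiv.apply_symm_apply w

/-- index of the first syllable -/
def fst (x : CoprodI G) : Option ι := (Word.equiv x).fstIdx

lemma fst_of_mul {i : ι} (g : G i) (hg : g ≠ 1) (x : CoprodI G) (hx : fst x ≠ some i) :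
    fst (CoprodI.of g * x) = some i := by
  have hx' : (Word.equiv x).fstIdx ≠ some i := hx
  unfold fst
  rw [equiv_mul, ← Word.cons_eq_smul (h1 := hx') (h2 := hg), Word.fstIdx_cons]

lemma fst_of {i : ι} (g : G i) : fst (CoprodI.of g) = none ∨ fst (CoprodI.of g) = some i := by
  by_cases hg : g = 1
  · left
    subst hg
    rw [map_one]
    unfold fst
    have := equiv_prod (Word.empty : Word G)
    rw [Word.prod_empty] at this
    rw [this]
    rfl
  · right
    have := fst_of_mul g hg 1 (by
      unfold fst
      have := equiv_prod (Word.empty : Word G)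
      rw [Word.prod_empty] at this
      rw [this]
      simp [Word.fstIdx, Word.empty])
    rwa [mul_one] at this

/-- right multiplication by a syllable of index `a` does not change the first syllable unless
it has index `a` -/
lemma fst_mul_of {a : ι} (c : G a) (w : Word G) :
    (∀ i, i ≠ a → w.fstIdx = some i → fst (w.prod * CoprodI.of c) = some i) ∧
    ((w.fstIdx = none ∨ w.fstIdx = some a) →
      (fst (w.prod * CoprodI.of c) = none ∨ fst (w.prod * CoprodI.of c) = some a)) := by
  induction w using Word.consRecOn with
  | empty =>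
    refine ⟨fun i _ h => ?_, fun _ => ?_⟩
    · simp [Word.fstIdx, Word.empty] at h
    · rw [Word.prod_empty, one_mul]
      exact fst_of c
  | cons i m w h1 h2 ih =>
    rw [Word.prod_cons, mul_assoc, Word.fstIdx_cons]
    have h3 : fst (w.prod * CoprodI.of c) ≠ some i ∨ i = a := by
      by_cases hia : i = a
      · exact Or.inr hia
      left
      rcases hw : w.fstIdx with _ | j
      · rcases ih.2 (Or.inl hw) with h | h
        · rw [h]; simp
        · rw [h]; simpa using fun e : a = i => hia e.symm
      · by_cases hja : j = a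
        · subst hja
          rcases ih.2 (Or.inr hw) with h | h
          · rw [h]; simp
          · rw [h]; simpa using fun e : j = i => hia e.symm
        · rw [ih.1 j hja hw]
          rw [hw] at h1
          exact h1
    refine ⟨fun j hj hij => ?_, fun hor => ?_⟩
    · simp only [Option.some.injEq] at hij
      subst hij
      rcases h3 with h3 | h3
      · exact fst_of_mul m h2 _ h3
      · exact absurd h3 hj
    · have hia : i = a := by
        rcases hor with h | h
        · simp at h
        · simpa using h
      subst hia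
      rcases hw : w.fstIdx with _ | j
      · have : w = Word.empty := by
          apply Word.ext
          simp only [Word.fstIdx, Option.map_eq_none_iff, List.head?_eq_none_iff] at hw
          rw [hw]
          rfl
        subst this
        rw [Word.prod_empty, one_mul, ← map_mul]
        exact fst_of _
      · right
        have hji : j ≠ i := by
          rintro rfl
          exact h1 hw
        apply fst_of_mul m h2
        rw [ih.1 j hji hw]
        simpa using hji

/-- an element commuting with a nontrivial element of a factor lies in the factor -/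
lemma mem_factor_of_commute {a : ι} (c : G a) (hc : c ≠ 1) (x : CoprodI G)
    (h : x * CoprodI.of c = CoprodI.of c * x) : ∃ g : G a, x = CoprodI.of g := by
  set q := Word.equivPair a (Word.equiv x) with hq
  have hx : x = CoprodI.of q.head * q.tail.prod := by
    rw [← Word.prod_rcons, hq, ← Word.equivPair_symm, Equiv.symm_apply_apply, prod_syl]
  rcases ht : q.tail.fstIdx with _ | j
  · have : q.tail = Word.empty := by
      apply Word.ext
      simp only [Word.fstIdx, Option.map_eq_none_iff, List.head?_eq_none_iff] at ht
      rw [ht]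
      rfl
    exact ⟨q.head, by rw [hx, this, Word.prod_empty, mul_one]⟩
  · exfalso
    have hja : j ≠ a := by
      rintro rfl
      exact q.fstIdx_ne ht
    have h1 : fst (q.tail.prod * CoprodI.of c) = some j := (fst_mul_of c q.tail).1 j hja ht
    -- compare the pair decompositions
    have h2 : CoprodI.of q.head * (q.tail.prod * CoprodI.of c) =
        CoprodI.of (c * q.head) * q.tail.prod := by
      rw [← mul_assoc, ← hx, h, map_mul, mul_assoc, ← hx]
    have h3 := congrArg Word.equiv h2
    rw [equiv_mul, equiv_mul, equiv_prod] at h3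
    have h4 := congrArg (fun w => (Word.equivPair a w).head) h3
    simp only [Word.equivPair_smul_same] at h4
    rw [Word.equivPair_eq_of_fstIdx_ne (w := Word.equiv (q.tail.prod * CoprodI.of c)) (by
        change fst _ ≠ _
        rw [h1]
        simpa using hja),
      Word.equivPair_eq_of_fstIdx_ne (w := q.tail) q.fstIdx_ne] at h4
    simp only [mul_one] at h4
    exact hc (mul_eq_right.1 h4.symm)

/-- the centraliser of a nontrivial power of a generator of a free group -/
lemma free_centralizer {α : Type} [DecidableEq α] (a : α) (n : ℕ) (hn : 1 ≤ n)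
    (g : FreeGroup α) (h : g * FreeGroup.of a ^ n = FreeGroup.of a ^ n * g) :
    g ∈ Subgroup.zpowers (FreeGroup.of a) := by
  have hc : (FreeGroup.of () : FreeGroup Unit) ^ n ≠ 1 := by
    intro h0
    have h1 : (Multiplicative.ofAdd (1 : ℤ)) ^ n = 1 := by
      have := congrArg (FreeGroup.lift (fun _ : Unit => Multiplicative.ofAdd (1 : ℤ))) h0
      simpa only [map_pow, FreeGroup.lift_apply_of, MonoidHom.map_one] using this
    rw [← ofAdd_nsmul] at h1
    have h2 := ofAdd_eq_one.1 h1
    simp at h2
    omega
  have e1 : ∀ b : α, freeGroupEquivCoprodI (FreeGroup.of b) =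
      CoprodI.of (M := fun _ : α => FreeGroup Unit) (i := b) (FreeGroup.of ()) := by
    intro b
    simp [freeGroupEquivCoprodI]
  have h1 := congrArg freeGroupEquivCoprodI h
  rw [map_mul, map_mul, map_pow, e1, ← map_pow] at h1
  obtain ⟨y, hy⟩ := mem_factor_of_commute _ hc _ h1
  have h2 : g = freeGroupEquivCoprodI.symm
      (CoprodI.of (M := fun _ : α => FreeGroup Unit) (i := a) y) := by
    rw [← hy, MulEquiv.symm_apply_apply]
  have h3 : ∀ y : FreeGroup Unit, freeGroupEquivCoprodI.symm
      (CoprodI.of (M := fun _ : α => FreeGroup Unit) (i := a) y) ∈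
        Subgroup.zpowers (FreeGroup.of a) := by
    intro y
    induction y using FreeGroup.induction_on with
    | C1 => rw [map_one, map_one]; exact one_mem _
    | of u =>
      have : (FreeGroup.of u : FreeGroup Unit) = FreeGroup.of () := rfl
      rw [this, ← e1, MulEquiv.symm_apply_apply]
      exact Subgroup.mem_zpowers _
    | inv_of u hu => rw [map_inv, map_inv]; exact inv_mem hu
    | mul u v hu hv => rw [map_mul, map_mul]; exact mul_mem hu hv
  rw [h2]
  exact h3 y

/-- elements fixed by an iterate of conjugation by a power of a generator -/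
lemma conj_periodic {α : Type} [DecidableEq α] (a : α) (k N : ℕ) (hk : 1 ≤ k) (hN : 1 ≤ N)
    (g : FreeGroup α) (h : (MulAut.conj (FreeGroup.of a ^ k) : FreeGroup α → FreeGroup α)^[N] g = g) :
    g ∈ Subgroup.zpowers (FreeGroup.of a) := by
  have h1 : ∀ N : ℕ, (MulAut.conj (FreeGroup.of a ^ k) : FreeGroup α → FreeGroup α)^[N] g =
      FreeGroup.of a ^ (k * N) * g * (FreeGroup.of a ^ (k * N))⁻¹ := by
    intro N
    induction N with
    | zero => simp
    | succ N ih =>
      rw [Function.iterate_succ_apply', ih, MulAut.conj_apply, mul_add, mul_one, pow_add,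
        mul_inv_rev]
      have := (Commute.refl (FreeGroup.of a : FreeGroup α)).pow_pow (k * N) k
      rw [this.eq]
      group
  rw [h1 N] at h
  apply free_centralizer a (k * N) (by nlinarith)
  rw [mul_inv_eq_iff_eq_mul] at h
  exact h.symm

end Pool.Agent.H926R3.Br.FP
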