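import Pool.Agent.H926R3.Br.Class

/-!
# The sliding circuit
-/

set_option autoImplicit false
set_option linter.unusedSimpArgs false

namespace Pool.Agent.H926R3.Br

lemma round02 : round (n := 5) 0 2 = ConjClasses.mk wB := by
  have : round (n := 5) 0 2 = ConjClasses.mk (X 0 * (X 1 * (X 2 * 1))) := rfl
  rw [this, mul_one, ← mul_assoc]

lemma round34 : round (n := 5) 3 4 = ConjClasses.mk wE := by
  have : round (n := 5) 3 4 = ConjClasses.mk (X 3 * (X 4 * 1)) := rfl
  rw [this, mul_one]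

lemma round12 : round (n := 5) 1 2 = ConjClasses.mk (X 1 * X 2) := by
  have : round (n := 5) 1 2 = ConjClasses.mk (X 1 * (X 2 * 1)) := rfl
  rw [this, mul_one]

/-- the first curve -/
def C0 : Cls 5 := act (round (n := 5) 0 1) (s1 ^ 2)⁻¹

/-- the second curve -/
def C1 : Cls 5 := act C0 D

lemma nd01 : Nondeg (n := 5) 0 1 := by unfold Nondeg; decide
lemma nd12 : Nondeg (n := 5) 1 2 := by unfold Nondeg; decide
lemma nd02 : Nondeg (n := 5) 0 2 := by unfold Nondeg; decide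
lemma nd34 : Nondeg (n := 5) 3 4 := by unfold Nondeg; decide

lemma act_C0 : act C0 (s1 ^ 2) = round (n := 5) 0 1 := by
  rw [C0, ← act_mul, inv_mul_cancel, act_one]

lemma r01_D2 : act (round (n := 5) 0 1) (D * D) = round (n := 5) 0 1 := by
  rw [round01, act_mk, arT_D2, ConjClasses.mk_eq_mk_iff_isConj]
  change IsConj (T 1 0 0 wA) wA
  rw [T_A]
  exact isConj_cj _ _

lemma r01_s0 : act (round (n := 5) 0 1) s0 = round (n := 5) 0 1 := by
  rw [round01, act_mk, map_mul, a00, a01]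
  congr 1
  group

lemma r01_s3 : act (round (n := 5) 0 1) s3 = round (n := 5) 0 1 := by
  rw [round01, act_mk, map_mul, a30, a31]

lemma act_pow {c : Cls 5} {x : B 5} (h : act c x = c) (m : ℕ) : act c (x ^ m) = c := by
  induction m with
  | zero => rw [pow_zero, act_one]
  | succ m ih => rw [pow_succ, act_mul, ih, h]

lemma r01_xh : act (round (n := 5) 0 1) xh = round (n := 5) 0 1 := by
  have p4 : D ^ 4 = (D * D) * (D * D) := by simp only [pow_succ, pow_zero, one_mul, mul_assoc]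
  rw [xh, p4, act_mul, act_mul, act_mul, r01_D2, r01_D2, r01_s0, act_pow r01_s3]

lemma C0_x0 : act C0 x0 = C0 := by
  rw [x0, act_mul, act_mul, act_C0, r01_xh]
  rfl

lemma C1_s0 : act C1 (s0 ^ 2) = round (n := 5) 1 2 := by
  have h : (s1 ^ 2)⁻¹ * (D * s0 ^ 2) = D := by
    rw [inv_mul_eq_iff_eq_mul, pow_two, pow_two, ← mul_assoc, D_s0, mul_assoc, D_s0,
      ← mul_assoc]
  rw [C1, C0, ← act_mul, ← act_mul, h, round01, round12, act_mk, map_mul, d0, d1,
    ConjClasses.mk_eq_mk_iff_isConj]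
  exact isConj_iff.2 ⟨(X 0)⁻¹, by group⟩

lemma C1_D : act C1 D = C0 := by
  have h : (s1 ^ 2)⁻¹ * (D * D) = D * D * (s1 ^ 2)⁻¹ := by
    have h1 : Commute (D * D) s1 := D2_s1
    exact ((h1.pow_right 2).inv_right).eq.symm
  rw [C1, C0, ← act_mul, ← act_mul, h, act_mul, r01_D2]

/-! ### complexity -/

lemma complexity_eq (c : Cls 5) (h β : B 5) (hc : c = act (round (n := 5) 0 1) h)
    (hh : en h 0 2 = en h 1 2 + 2) (hβ : β ∈ Pos 5) (l : List (B 5)) (hnf : IsNF β 0 l)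
    (hl : l.length = 2) (hr : IsRound (act c β)) : complexity c = 2 := by
  unfold complexity
  have hmem : 2 ∈ {r | ∃ x ∈ Pos 5, HasCanonicalLength x r ∧ IsRound (act c x)} :=
    ⟨β, hβ, ⟨0, l, hnf, hl⟩, hr⟩
  apply le_antisymm
  · exact Nat.sInf_le hmem
  · by_contra hlt
    push Not at hlt
    obtain ⟨x, hx, ⟨p, l', hnf', hl'⟩, hr'⟩ := Nat.sInf_mem ⟨2, hmem⟩
    have hl2 : l'.length ≤ 1 := by omega
    rw [hc] at hr'
    exact not_round h hh hnf' hl2 hr'

lemma cx0 : complexity C0 = 2 := by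
  refine complexity_eq C0 (s1 ^ 2)⁻¹ (s1 ^ 2) rfl ?_ (pow_mem p1 2) _ nf11 rfl ?_
  · have : (s1 ^ 2)⁻¹ = s1⁻¹ * s1⁻¹ := by rw [pow_two, mul_inv_rev]
    rw [this]
    simp only [en_mul, en_inv, pm_inv, en_σ, pm_σ, wgen]
    decide
  · rw [act_C0]
    exact ⟨0, 1, nd01, rfl⟩

lemma cx1 : complexity C1 = 2 := by
  refine complexity_eq C1 ((s1 ^ 2)⁻¹ * D) (s0 ^ 2) ?_ ?_ (pow_mem p0 2) _ nf00 rfl ?_
  · rw [C1, C0, act_mul]
  · have : (s1 ^ 2)⁻¹ = s1⁻¹ * s1⁻¹ := by rw [pow_two, mul_inv_rev]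
    rw [this]
    simp only [D, en_mul, en_inv, pm_mul, pm_inv, en_σ, pm_σ, wgen]
    decide
  · rw [C1_s0]
    exact ⟨1, 2, nd12, rfl⟩

/-! ### `x0` is not periodic -/

lemma x0_data : (∀ a : Fin 5, a ≤ 2 → pm x0 a ≤ 2) ∧ (∀ a : Fin 5, 3 ≤ a → 3 ≤ pm x0 a) ∧
    pm x0 3 = 4 ∧ pm x0 4 = 3 ∧ (∀ a b : Fin 5, a ≤ 2 → 3 ≤ b → en x0 a b = 0) ∧
    en x0 3 4 = 7 ∧ en x0 4 3 = 7 := by
  rw [x0_eq]
  simp only [l0, List.prod_cons, List.prod_nil, mul_one, D, en_mul, pm_mul, en_σ, pm_σ, wgen]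
  decide +kernel

lemma x0_pow (m : ℕ) : (∀ a b : Fin 5, a ≤ 2 → 3 ≤ b → en (x0 ^ m) a b = 0) ∧
    en (x0 ^ m) 3 4 = 7 * m ∧ en (x0 ^ m) 4 3 = 7 * m := by
  obtain ⟨h1, h2, h3, h4, h5, h6, h7⟩ := x0_data
  induction m with
  | zero => simp [en_one]
  | succ m ih =>
    obtain ⟨i1, i2, i3⟩ := ih
    refine ⟨fun a b ha hb => ?_, ?_, ?_⟩
    · rw [pow_succ', en_mul, h5 a b ha hb, i1 _ _ (h1 a ha) (h2 b hb), add_zero]
    · rw [pow_succ', en_mul, h3, h4, h6, i3]
      push_cast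
      ring
    · rw [pow_succ', en_mul, h3, h4, h7, i2]
      push_cast
      ring

lemma not_periodic : ¬ IsPeriodic x0 := by
  rintro ⟨m, k, hm, h⟩
  obtain ⟨i1, i2, -⟩ := x0_pow m
  have e1 := i1 0 3 (by decide) (by decide)
  rw [h, en_delta_pow _ _ _ (by decide)] at e1
  rw [h, en_delta_pow _ _ _ (by decide), e1] at i2
  omega

/-! ### reduction curves -/

lemma disj_self : Disj C0 C0 :=
  ⟨s1 ^ 2, 0, 1, 0, 1, nd01, nd01, act_C0, act_C0, Or.inr (Or.inr (Or.inl ⟨le_rfl, le_rfl⟩))⟩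

lemma red_C0 : IsReductionCurve x0 C0 := by
  refine ⟨{C0}, Set.finite_singleton _, rfl, ?_, ?_, ?_⟩
  · rintro d rfl
    exact ⟨s1 ^ 2, 0, 1, nd01, act_C0⟩
  · rw [Set.image_singleton, C0_x0]
  · rintro d rfl e rfl
    exact disj_self

lemma x0_pow_conj (M : ℕ) : x0 ^ M * s1 ^ 2 = s1 ^ 2 * xh ^ M := by
  rw [x0, conj_pow, inv_mul_cancel_right]

lemma iter_act (x : B 5) (c : Cls 5) (m : ℕ) : (fun d => act d x)^[m] c = act c (x ^ m) := by
  induction m with
  | zero => rw [pow_zero, act_one]; rfl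
  | succ m ih => rw [Function.iterate_succ_apply', ih, pow_succ, act_mul]

lemma essential : IsEssential x0 C0 := by
  refine ⟨red_C0, ?_⟩
  rintro d ⟨S, hfin, hd, hcur, himg, -⟩
  -- `d` is periodic
  have hmaps : Set.MapsTo (fun d => act d x0) S S := by
    intro e he
    rw [← himg]
    exact ⟨e, he, rfl⟩
  have hinj : Function.Injective (fun d : Cls 5 => act d x0) := by
    intro a b hab
    have h1 : act (act a x0) x0⁻¹ = act (act b x0) x0⁻¹ := congrArg (fun e => act e x0⁻¹) hab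
    rwa [← act_mul, ← act_mul, mul_inv_cancel, act_one, act_one] at h1
  obtain ⟨M, hM, hM'⟩ : ∃ M : ℕ, 1 ≤ M ∧ act d (x0 ^ M) = d := by
    have hf : Finite S := hfin
    have hginj : Function.Injective (hmaps.restrict (fun d => act d x0) S S) := by
      intro a b hab
      apply Subtype.ext
      exact hinj (congrArg Subtype.val hab)
    obtain ⟨M, hM, hper⟩ := hginj.mem_periodicPts ⟨d, hd⟩
    refine ⟨M, hM, ?_⟩
    have h1 : (hmaps.restrict (fun d => act d x0) S S)^[M] ⟨d, hd⟩ = ⟨d, hd⟩ := hper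
    have h2 := congrArg Subtype.val h1
    rw [hmaps.iterate_restrict M, Set.MapsTo.val_restrict_apply, iter_act] at h2
    exact h2
  -- transport
  set e := act d (s1 ^ 2) with he
  have he1 : act e (xh ^ M) = e := by
    rw [he, ← act_mul, ← x0_pow_conj, act_mul, hM']
  have he2 : act e ((xh * xh) ^ M) = e := by
    rw [(Commute.refl xh).mul_pow, act_mul, he1, he1]
  obtain ⟨x, i, j, hij, hx⟩ := hcur d hd
  set w : F := ar (x⁻¹ * s1 ^ 2) ((rw' i j).map FreeGroup.of).prod with hw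
  have hew : e = ConjClasses.mk w := by
    have h1 : d = act (round i j) x⁻¹ := by rw [← hx, ← act_mul, mul_inv_cancel, act_one]
    rw [he, h1, ← act_mul]
    rfl
  have hT : ∀ m : ℕ, IsConj ((T (M * 4) (M * 1) (M * 7))^[m] w) w := by
    have h1 : IsConj (T (M * 4) (M * 1) (M * 7) w) w := by
      rw [← ar_pow' (xh * xh) 4 1 7 ar_xh_sq M hM w, ← ConjClasses.mk_eq_mk_iff_isConj]
      rw [hew, act_mk] at he2
      exact he2
    intro m
    induction m with
    | zero => exact IsConj.refl _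
    | succ m ih =>
      rw [Function.iterate_succ_apply']
      exact (isConj_map _ ih).trans h1
  have hcl := classify (M * 4) (M * 1) (M * 7) (by omega) (by omega) (by omega) w (x⁻¹ * s1 ^ 2)
    i j hij (IsConj.refl _) hT
  rcases hcl with h | h | h
  · have : act d (s1 ^ 2) = round (n := 5) 0 1 := by
      rw [← he, hew, round01]
      exact ConjClasses.mk_eq_mk_iff_isConj.2 h
    exact ⟨s1 ^ 2, 0, 1, 0, 1, nd01, nd01, act_C0, this,
      Or.inr (Or.inr (Or.inl ⟨le_rfl, le_rfl⟩))⟩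
  · have : act d (s1 ^ 2) = round (n := 5) 0 2 := by
      rw [← he, hew, round02]
      exact ConjClasses.mk_eq_mk_iff_isConj.2 h
    exact ⟨s1 ^ 2, 0, 1, 0, 2, nd01, nd02, act_C0, this,
      Or.inr (Or.inr (Or.inr ⟨by decide, by decide⟩))⟩
  · have : act d (s1 ^ 2) = round (n := 5) 3 4 := by
      rw [← he, hew, round34]
      exact ConjClasses.mk_eq_mk_iff_isConj.2 h
    exact ⟨s1 ^ 2, 0, 1, 3, 4, nd01, nd34, act_C0, this, Or.inl (by decide)⟩

lemma reducible : IsReducible x0 := ⟨not_periodic, C0, red_C0⟩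

/-! ### conjugation -/

lemma disj_act {c d : Cls 5} (h : Disj c d) (g : B 5) : Disj (act c g) (act d g) := by
  obtain ⟨x, i, j, k, l, h1, h2, h3, h4, h5⟩ := h
  refine ⟨g⁻¹ * x, i, j, k, l, h1, h2, ?_, ?_, h5⟩
  · rw [← act_mul, mul_inv_cancel_left, h3]
  · rw [← act_mul, mul_inv_cancel_left, h4]

lemma red_conj {x : B 5} {c : Cls 5} (h : IsReductionCurve x c) (g : B 5) :
    IsReductionCurve (g⁻¹ * x * g) (act c g) := by
  obtain ⟨S, hfin, hc, hcur, himg, hdisj⟩ := h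
  refine ⟨(fun d => act d g) '' S, hfin.image _, ⟨c, hc, rfl⟩, ?_, ?_, ?_⟩
  · rintro _ ⟨d, hd, rfl⟩
    obtain ⟨y, hy⟩ := hcur d hd
    refine ⟨g⁻¹ * y, ?_⟩
    change IsRound (act (act d g) (g⁻¹ * y))
    rwa [← act_mul, mul_inv_cancel_left]
  · rw [← Set.image_comp]
    have : (fun d => act d (g⁻¹ * x * g)) ∘ (fun d => act d g) =
        (fun d => act d g) ∘ (fun d => act d x) := by
      funext d
      change act (act d g) (g⁻¹ * x * g) = act (act d x) g
      rw [← act_mul, ← act_mul, mul_assoc, mul_inv_cancel_left]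
    rw [this, Set.image_comp, himg]
  · rintro _ ⟨d, hd, rfl⟩ _ ⟨e, he, rfl⟩
    exact disj_act (hdisj d hd e he) g

lemma essential_conj {x : B 5} {c : Cls 5} (h : IsEssential x c) (g : B 5) :
    IsEssential (g⁻¹ * x * g) (act c g) := by
  refine ⟨red_conj h.1 g, fun d hd => ?_⟩
  have h1 := red_conj hd g⁻¹
  have h2 : (g⁻¹)⁻¹ * (g⁻¹ * x * g) * g⁻¹ = x := by group
  rw [h2] at h1
  have h3 := disj_act (h.2 _ h1) g
  rwa [← act_mul, inv_mul_cancel, act_one] at h3

/-- the braids of the sliding circuit -/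
def xs (k : ℕ) : B 5 := if k % 2 = 0 then x0 else x1

/-- the curves of the sliding circuit -/
def cs (k : ℕ) : Cls 5 := if k % 2 = 0 then C0 else C1

lemma xs_succ (k : ℕ) : xs (k + 1) = D⁻¹ * xs k * D := by
  unfold xs
  rcases Nat.mod_two_eq_zero_or_one k with h | h
  · rw [if_neg (by omega), if_pos h]
    rfl
  · rw [if_pos (by omega), if_neg (by omega), x1_conj]

lemma cs_succ (k : ℕ) : cs (k + 1) = act (cs k) D := by
  unfold cs
  rcases Nat.mod_two_eq_zero_or_one k with h | h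
  · rw [if_neg (by omega), if_pos h]
    rfl
  · rw [if_pos (by omega), if_neg (by omega), C1_D]

lemma xs_pp (k : ℕ) : IsPreferredPrefix (xs k) D := by
  unfold xs
  split_ifs
  · exact pp0
  · exact pp1

lemma cs_cx (k : ℕ) : complexity (cs k) = 2 := by
  unfold cs
  split_ifs
  · exact cx0
  · exact cx1

lemma cs_ess (k : ℕ) : IsEssential (xs k) (cs k) := by
  induction k with
  | zero => exact essential
  | succ k ih =>
    rw [xs_succ, cs_succ]
    exact essential_conj ih D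

end Pool.Agent.H926R3.Br
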