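import Pool.Agent.H926R3.Br.Cross

/-!
# Relations, normal forms and the preferred prefix
-/

set_option autoImplicit false

namespace Pool.Agent.H926R3.Br

lemma rel_comm (i j : Fin 4) (h : (i : ℕ) + 2 ≤ j) :
    σ (n := 5) i * σ (n := 5) j = σ (n := 5) j * σ (n := 5) i := by
  have := PresentedGroup.mk_eq_mk_of_mul_inv_mem (rels := rels 5)
    (x := FreeGroup.of i * FreeGroup.of j) (y := FreeGroup.of j * FreeGroup.of i)
    (Or.inl ⟨i, j, h, rfl⟩)
  exact this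

lemma rel_braid (i j : Fin 4) (h : (i : ℕ) + 1 = j) :
    σ (n := 5) i * σ (n := 5) j * σ (n := 5) i = σ (n := 5) j * σ (n := 5) i * σ (n := 5) j := by
  have := PresentedGroup.mk_eq_mk_of_mul_inv_mem (rels := rels 5)
    (x := FreeGroup.of i * FreeGroup.of j * FreeGroup.of i)
    (y := FreeGroup.of j * FreeGroup.of i * FreeGroup.of j)
    (Or.inr ⟨i, j, h, rfl⟩)
  exact this

lemma c02 : s2 * s0 = s0 * s2 := (rel_comm 0 2 (by decide)).symm
lemma c03 : s3 * s0 = s0 * s3 := (rel_comm 0 3 (by decide)).symm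
lemma c13 : s3 * s1 = s1 * s3 := (rel_comm 1 3 (by decide)).symm
lemma b01 : s0 * s1 * s0 = s1 * s0 * s1 := rel_braid 0 1 (by decide)
lemma b12 : s1 * s2 * s1 = s2 * s1 * s2 := rel_braid 1 2 (by decide)
lemma b23 : s2 * s3 * s2 = s3 * s2 * s3 := rel_braid 2 3 (by decide)

lemma c02' (w : B 5) : s2 * (s0 * w) = s0 * (s2 * w) := by rw [← mul_assoc, c02, mul_assoc]
lemma c03' (w : B 5) : s3 * (s0 * w) = s0 * (s3 * w) := by rw [← mul_assoc, c03, mul_assoc]
lemma c13' (w : B 5) : s3 * (s1 * w) = s1 * (s3 * w) := by rw [← mul_assoc, c13, mul_assoc]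

/-- the half twist on the first three strands -/
def D : B 5 := s0 * s1 * s0

lemma D_eq : D = s1 * s0 * s1 := b01

lemma D_s0 : D * s0 = s1 * D := by
  have : D * s0 = s1 * (s0 * s1 * s0) := by rw [D_eq]; group
  rw [this]; rfl

lemma D_s1 : D * s1 = s0 * D := by
  have : D * s1 = s0 * (s1 * s0 * s1) := by rw [D]; group
  rw [this, ← D_eq]

lemma D_s3 : s3 * D = D * s3 := by
  simp only [D, mul_assoc, c03, c03', c13']

/-- the full twist on the first three strands -/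
lemma D2_eq : s0 * s1 * s1 * s0 * s1 * s1 = D * D := by
  calc s0 * s1 * s1 * s0 * s1 * s1 = s0 * s1 * (s1 * s0 * s1) * s1 := by group
    _ = s0 * s1 * (s0 * s1 * s0) * s1 := by rw [← b01]
    _ = (s0 * s1 * s0) * (s1 * s0 * s1) := by group
    _ = D * D := by rw [← b01]; rfl

lemma D2_s0 : D * D * s0 = s0 * (D * D) := by
  rw [mul_assoc, D_s0, ← mul_assoc, D_s1, mul_assoc]

lemma D2_s1 : D * D * s1 = s1 * (D * D) := by
  rw [mul_assoc, D_s1, ← mul_assoc, D_s0, mul_assoc]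

lemma D2_s3 : D * D * s3 = s3 * (D * D) := by
  rw [mul_assoc, ← D_s3, ← mul_assoc, ← D_s3, mul_assoc]

/-- the model braid -/
def xh : B 5 := D ^ 4 * s0 * s3 ^ 7

/-- the first braid of the sliding circuit -/
def x0 : B 5 := s1 ^ 2 * xh * (s1 ^ 2)⁻¹

/-- the second braid of the sliding circuit -/
def x1 : B 5 := D⁻¹ * x0 * D

def l0 : List (B 5) :=
  [D * s3, D * s3, s1 * s3, s1 * s0 * s3, s0 * s1 * s3, s1 * s0 * s3, s3]

def l1 : List (B 5) :=
  [D * s3, D * s3, s0 * s3, s0 * s1 * s3, s1 * s0 * s3, s0 * s1 * s3, s3]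

lemma s3_pow : s3 ^ 7 = s3 * (s3 * (s3 * (s3 * (s3 * (s3 * s3))))) := by
  simp only [pow_succ, pow_zero, one_mul, mul_assoc]

lemma s3_pow_comm0 : s3 ^ 7 * s0 = s0 * s3 ^ 7 :=
  ((show Commute s3 s0 from c03).pow_left 7).eq

lemma s3_pow_comm1 : s3 ^ 7 * s1 = s1 * s3 ^ 7 :=
  ((show Commute s3 s1 from c13).pow_left 7).eq

lemma s3_pow_commD : s3 ^ 7 * D = D * s3 ^ 7 :=
  ((show Commute s3 D from D_s3).pow_left 7).eq

lemma l0_prod : l0.prod = D * D * (s1 * s1 * s0) * (s0 * s1 * s1 * s0) * s3 ^ 7 := by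
  rw [s3_pow]
  simp only [l0, List.prod_cons, List.prod_nil, mul_one, mul_assoc, c03', c13', D]

lemma l1_prod : l1.prod = D * D * (s0 * s0 * s1) * (s1 * s0 * s0 * s1) * s3 ^ 7 := by
  rw [s3_pow]
  simp only [l1, List.prod_cons, List.prod_nil, mul_one, mul_assoc, c03', c13', D]

lemma x0_eq : x0 = l0.prod := by
  rw [l0_prod, x0, mul_inv_eq_iff_eq_mul, xh]
  have e1 : s3 ^ 7 * s1 ^ 2 = s1 ^ 2 * s3 ^ 7 :=
    ((show Commute (s3 ^ 7) s1 from s3_pow_comm1).pow_right 2).eq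
  have e2 : (D * D) * (s1 * s1 * s0) = (s1 * s1 * s0) * (D * D) := by
    have h0 : Commute (D * D) s0 := D2_s0
    have h1 : Commute (D * D) s1 := D2_s1
    exact ((h1.mul_right h1).mul_right h0).eq
  have e3 : (D * D) * s0 = s0 * (D * D) := D2_s0
  have p2 : s1 ^ 2 = s1 * s1 := pow_two _
  have p4 : D ^ 4 = D * D * (D * D) := by simp only [pow_succ, pow_zero, one_mul, mul_assoc]
  calc s1 ^ 2 * (D ^ 4 * s0 * s3 ^ 7) = s1 * s1 * ((D * D) * ((D * D) * s0)) * s3 ^ 7 := by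
        rw [p2, p4]
        simp only [mul_assoc]
    _ = s1 * s1 * (s0 * (D * D) * (D * D)) * s3 ^ 7 := by
        rw [e3, ← mul_assoc (D * D) s0, e3]
    _ = ((s1 * s1 * s0) * (D * D)) * (D * D) * s3 ^ 7 := by group
    _ = ((D * D) * (s1 * s1 * s0)) * (s0 * s1 * s1 * s0 * s1 * s1) * s3 ^ 7 := by
        rw [← e2, D2_eq]
    _ = (D * D) * (s1 * s1 * s0) * (s0 * s1 * s1 * s0) * (s1 ^ 2 * s3 ^ 7) := by
        rw [p2]
        simp only [mul_assoc]
    _ = (D * D) * (s1 * s1 * s0) * (s0 * s1 * s1 * s0) * (s3 ^ 7 * s1 ^ 2) := by rw [e1]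
    _ = _ := by simp only [mul_assoc]

lemma x1_eq : x1 = l1.prod := by
  rw [l1_prod, x1, x0_eq, l0_prod, mul_assoc, inv_mul_eq_iff_eq_mul]
  have h0 : ∀ w : B 5, D * (s0 * w) = s1 * (D * w) := fun w => by
    rw [← mul_assoc, D_s0, mul_assoc]
  have h1 : ∀ w : B 5, D * (s1 * w) = s0 * (D * w) := fun w => by
    rw [← mul_assoc, D_s1, mul_assoc]
  simp only [mul_assoc, s3_pow_commD, h0, h1, D_s0, D_s1]

lemma x1_conj : D⁻¹ * x1 * D = x0 := by
  have h : Commute (D * D) x0 := by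
    have h0 : Commute (D * D) s0 := D2_s0
    have h1 : Commute (D * D) s1 := D2_s1
    have h3 : Commute (D * D) s3 := D2_s3
    have hD : Commute (D * D) D := (Commute.refl D).mul_left (Commute.refl D)
    have hx : Commute (D * D) xh := ((hD.pow_right 4).mul_right h0).mul_right (h3.pow_right 7)
    exact ((h1.pow_right 2).mul_right hx).mul_right (h1.pow_right 2).inv_right
  have : D⁻¹ * x1 * D = (D * D)⁻¹ * (x0 * (D * D)) := by rw [x1]; group
  rw [this, ← h.eq, inv_mul_cancel_left]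

end Pool.Agent.H926R3.Br
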