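import Pool.Agent.H926R3.Br.Art
import Pool.Agent.H926R3.Br.Free

/-!
# Conjugacy classes fixed by a multitwist
-/

set_option autoImplicit false

namespace Pool.Agent.H926R3.Br

open Monoid Pool.Agent.H926R3.Br.FP

abbrev wA : F := X 0 * X 1
abbrev wB : F := X 0 * X 1 * X 2
abbrev wE : F := X 3 * X 4

/-- conjugation -/
def cj {H : Type} [Group H] (c g : H) : H := c * g * c⁻¹

/-- the multitwist -/
def T (p q r : ℕ) : F →* F :=
  FreeGroup.lift ![cj (wB ^ p * wA ^ q) (X 0), cj (wB ^ p * wA ^ q) (X 1), cj (wB ^ p) (X 2),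
    cj (wE ^ r) (X 3), cj (wE ^ r) (X 4)]

lemma T_0 (p q r : ℕ) : T p q r (X 0) = cj (wB ^ p * wA ^ q) (X 0) := FreeGroup.lift_apply_of
lemma T_1 (p q r : ℕ) : T p q r (X 1) = cj (wB ^ p * wA ^ q) (X 1) := FreeGroup.lift_apply_of
lemma T_2 (p q r : ℕ) : T p q r (X 2) = cj (wB ^ p) (X 2) := FreeGroup.lift_apply_of
lemma T_3 (p q r : ℕ) : T p q r (X 3) = cj (wE ^ r) (X 3) := FreeGroup.lift_apply_of
lemma T_4 (p q r : ℕ) : T p q r (X 4) = cj (wE ^ r) (X 4) := FreeGroup.lift_apply_of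

lemma cj_mul {H : Type} [Group H] (c g h : H) : cj c (g * h) = cj c g * cj c h := by
  unfold cj; group

lemma cj_pow_self {H : Type} [Group H] (c : H) (n : ℕ) : cj (c ^ n) c = c := by
  unfold cj
  rw [((Commute.refl c).pow_left n).eq, mul_inv_cancel_right]

lemma cj_cj {H : Type} [Group H] (c d g : H) : cj (c * d) g = cj c (cj d g) := by
  unfold cj; group

lemma T_A (p q r : ℕ) : T p q r wA = cj (wB ^ p) wA := by
  rw [map_mul, T_0, T_1, ← cj_mul, cj_cj, cj_pow_self]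

lemma T_B (p q r : ℕ) : T p q r wB = wB := by
  have : wB = wA * X 2 := rfl
  rw [this, map_mul, T_A, T_2, ← cj_mul]
  exact cj_pow_self _ _

lemma T_E (p q r : ℕ) : T p q r wE = wE := by
  rw [map_mul, T_3, T_4, ← cj_mul, cj_pow_self]

/-- free group on three letters -/
abbrev H3 := FreeGroup (Fin 3)
/-- free group on two letters -/
abbrev H2 := FreeGroup (Fin 2)

/-! ### first decomposition -/

abbrev P1 := CoprodI (fun _ : Fin 2 => H3)

abbrev o1 (i : Fin 2) : H3 →* P1 := CoprodI.of (M := fun _ : Fin 2 => H3) (i := i)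

abbrev Y (k : Fin 3) : H3 := FreeGroup.of k

def j1 : F →* P1 := FreeGroup.lift
  ![o1 0 (Y 0), o1 0 ((Y 0)⁻¹ * Y 1), o1 0 (Y 1)⁻¹ * o1 1 (Y 0), o1 1 (Y 1),
    o1 1 ((Y 1)⁻¹ * Y 2)]

def r1a : H3 →* F := FreeGroup.lift ![X 0, wA, 1]
def r1b : H3 →* F := FreeGroup.lift ![wB, X 3, wE]

def r1 : P1 →* F := CoprodI.lift (fun i : Fin 2 => if i = 0 then r1a else r1b)

lemma r1_0 (g : H3) : r1 (o1 0 g) = r1a g := by
  unfold r1 o1
  rw [CoprodI.lift_of, if_pos rfl]

lemma r1_1 (g : H3) : r1 (o1 1 g) = r1b g := by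
  unfold r1 o1
  rw [CoprodI.lift_of, if_neg (by decide)]

lemma r1_j1 (w : F) : r1 (j1 w) = w := by
  have h : r1.comp j1 = MonoidHom.id F := by
    apply FreeGroup.ext_hom
    intro k
    rw [MonoidHom.comp_apply, j1, FreeGroup.lift_apply_of]
    fin_cases k
    · change r1 (o1 0 (Y 0)) = X 0
      rw [r1_0, r1a, FreeGroup.lift_apply_of]; rfl
    · change r1 (o1 0 ((Y 0)⁻¹ * Y 1)) = X 1
      rw [r1_0, map_mul, map_inv, r1a, FreeGroup.lift_apply_of, FreeGroup.lift_apply_of]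
      change (X 0)⁻¹ * wA = X 1
      group
    · change r1 (o1 0 (Y 1)⁻¹ * o1 1 (Y 0)) = X 2
      rw [map_mul, r1_0, r1_1, map_inv, r1a, r1b, FreeGroup.lift_apply_of,
        FreeGroup.lift_apply_of]
      change wA⁻¹ * wB = X 2
      group
    · change r1 (o1 1 (Y 1)) = X 3
      rw [r1_1, r1b, FreeGroup.lift_apply_of]; rfl
    · change r1 (o1 1 ((Y 1)⁻¹ * Y 2)) = X 4
      rw [r1_1, map_mul, map_inv, r1b, FreeGroup.lift_apply_of, FreeGroup.lift_apply_of]
      change (X 3)⁻¹ * wE = X 4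
      group
  exact DFunLike.congr_fun h w

/-- the second component of the twisted multitwist -/
def χ (p r : ℕ) : H3 →* H3 := FreeGroup.lift
  ![Y 0, cj (((Y 0) ^ p)⁻¹ * Y 2 ^ r) (Y 1), cj ((Y 0) ^ p)⁻¹ (Y 2)]

def χi (p r : ℕ) : H3 →* H3 := FreeGroup.lift
  ![Y 0, cj ((Y 0) ^ p * (Y 2 ^ r)⁻¹) (Y 1), cj ((Y 0) ^ p) (Y 2)]

lemma χ_0 (p r : ℕ) : χ p r (Y 0) = Y 0 := FreeGroup.lift_apply_of
lemma χ_1 (p r : ℕ) : χ p r (Y 1) = cj (((Y 0) ^ p)⁻¹ * Y 2 ^ r) (Y 1) := FreeGroup.lift_apply_of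
lemma χ_2 (p r : ℕ) : χ p r (Y 2) = cj ((Y 0) ^ p)⁻¹ (Y 2) := FreeGroup.lift_apply_of
lemma χi_0 (p r : ℕ) : χi p r (Y 0) = Y 0 := FreeGroup.lift_apply_of
lemma χi_1 (p r : ℕ) : χi p r (Y 1) = cj ((Y 0) ^ p * (Y 2 ^ r)⁻¹) (Y 1) :=
  FreeGroup.lift_apply_of
lemma χi_2 (p r : ℕ) : χi p r (Y 2) = cj ((Y 0) ^ p) (Y 2) := FreeGroup.lift_apply_of

lemma map_cj {H K : Type} [Group H] [Group K] (f : H →* K) (c g : H) :
    f (cj c g) = cj (f c) (f g) := by
  unfold cj; simp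

lemma cj_pow {H : Type} [Group H] (c g : H) (n : ℕ) : (cj c g) ^ n = cj c (g ^ n) := by
  unfold cj
  rw [conj_pow]

lemma χ_inj (p r : ℕ) : Function.Injective (χ p r) := by
  have h : (χi p r).comp (χ p r) = MonoidHom.id H3 := by
    apply FreeGroup.ext_hom
    intro k
    rw [MonoidHom.comp_apply]
    fin_cases k
    · change χi p r (χ p r (Y 0)) = Y 0
      rw [χ_0, χi_0]
    · change χi p r (χ p r (Y 1)) = Y 1
      rw [χ_1, map_cj, map_mul, map_inv, map_pow, map_pow, χi_0, χi_1, χi_2, cj_pow]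
      unfold cj
      group
    · change χi p r (χ p r (Y 2)) = Y 2
      rw [χ_2, map_cj, map_inv, map_pow, χi_0, χi_2]
      unfold cj
      group
  intro a b hab
  have h1 := DFunLike.congr_fun h a
  have h2 := DFunLike.congr_fun h b
  simp only [MonoidHom.comp_apply, MonoidHom.id_apply] at h1 h2
  rw [← h1, ← h2, hab]

/-- component endomorphisms in the first decomposition -/
def τ1 (p q r : ℕ) : ∀ _ : Fin 2, H3 →* H3 :=
  fun i => if i = 0 then (MulAut.conj (Y 1 ^ q)).toMonoidHom else χ p r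

lemma τ1_inj (p q r : ℕ) (i : Fin 2) : Function.Injective (τ1 p q r i) := by
  unfold τ1
  split_ifs
  · exact (MulAut.conj (Y 1 ^ q)).injective
  · exact χ_inj p r

lemma fm_0 (p q r : ℕ) (g : H3) : fmap (τ1 p q r) (o1 0 g) = o1 0 (cj (Y 1 ^ q) g) := by
  unfold fmap o1 τ1
  rw [CoprodI.lift_of, if_pos rfl]
  rfl

lemma fm_1 (p q r : ℕ) (g : H3) : fmap (τ1 p q r) (o1 1 g) = o1 1 (χ p r g) := by
  unfold fmap o1 τ1
  rw [CoprodI.lift_of, if_neg (by decide)]
  rfl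

lemma j_0 : j1 (X 0) = o1 0 (Y 0) := FreeGroup.lift_apply_of
lemma j_1 : j1 (X 1) = o1 0 ((Y 0)⁻¹ * Y 1) := FreeGroup.lift_apply_of
lemma j_2 : j1 (X 2) = o1 0 (Y 1)⁻¹ * o1 1 (Y 0) := FreeGroup.lift_apply_of
lemma j_3 : j1 (X 3) = o1 1 (Y 1) := FreeGroup.lift_apply_of
lemma j_4 : j1 (X 4) = o1 1 ((Y 1)⁻¹ * Y 2) := FreeGroup.lift_apply_of

lemma j_A : j1 wA = o1 0 (Y 1) := by
  rw [map_mul, j_0, j_1, ← map_mul, mul_inv_cancel_left]

lemma j_B : j1 wB = o1 1 (Y 0) := by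
  have : wB = wA * X 2 := rfl
  rw [this, map_mul, j_A, j_2, map_inv, mul_inv_cancel_left]

lemma j_E : j1 wE = o1 1 (Y 2) := by
  rw [map_mul, j_3, j_4, ← map_mul, mul_inv_cancel_left]

lemma j1_T (p q r : ℕ) (w : F) :
    j1 (T p q r w) = cj (o1 1 (Y 0) ^ p) (fmap (τ1 p q r) (j1 w)) := by
  have h : j1.comp (T p q r) =
      ((MulAut.conj (o1 1 (Y 0) ^ p)).toMonoidHom.comp (fmap (τ1 p q r))).comp j1 := by
    apply FreeGroup.ext_hom
    intro k
    rw [MonoidHom.comp_apply, MonoidHom.comp_apply, MonoidHom.comp_apply]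
    fin_cases k
    · change j1 (T p q r (X 0)) = cj (o1 1 (Y 0) ^ p) (fmap (τ1 p q r) (j1 (X 0)))
      rw [T_0, map_cj, map_mul, map_pow, map_pow, j_B, j_A, j_0, fm_0, cj_cj, map_cj, map_pow]
    · change j1 (T p q r (X 1)) = cj (o1 1 (Y 0) ^ p) (fmap (τ1 p q r) (j1 (X 1)))
      rw [T_1, map_cj, map_mul, map_pow, map_pow, j_B, j_A, j_1, fm_0, cj_cj, map_cj, map_pow]
    · change j1 (T p q r (X 2)) = cj (o1 1 (Y 0) ^ p) (fmap (τ1 p q r) (j1 (X 2)))
      rw [T_2, map_cj, map_pow, j_B, j_2, map_mul, map_inv, map_inv, fm_0, fm_1, χ_0,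
        cj_pow_self]
    · change j1 (T p q r (X 3)) = cj (o1 1 (Y 0) ^ p) (fmap (τ1 p q r) (j1 (X 3)))
      rw [T_3, map_cj, map_pow, j_E, j_3, fm_1, χ_1, map_cj, ← cj_cj, map_mul, map_inv, map_pow,
        map_pow, mul_inv_cancel_left]
    · change j1 (T p q r (X 4)) = cj (o1 1 (Y 0) ^ p) (fmap (τ1 p q r) (j1 (X 4)))
      rw [T_4, map_cj, map_pow, j_E, j_4, fm_1, map_mul, map_mul, map_mul, map_inv, map_inv, χ_1,
        χ_2, map_inv]
      simp only [map_cj, map_mul, map_inv, map_pow]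
      unfold cj
      have hc := (Commute.refl (o1 1 (Y 2))).pow_left r
      have hc' : (o1 1) (Y 2) ^ r * (o1 1) (Y 2) * ((o1 1) (Y 2) ^ r)⁻¹ = (o1 1) (Y 2) := by
        rw [hc.eq, mul_inv_cancel_right]
      calc _ = (o1 1) (Y 2) ^ r * ((o1 1) (Y 1))⁻¹ * ((o1 1) (Y 2) ^ r)⁻¹ *
            ((o1 1) (Y 2) ^ r * (o1 1) (Y 2) * ((o1 1) (Y 2) ^ r)⁻¹) := by group
        _ = _ := by
          rw [hc']
          group
  exact DFunLike.congr_fun h w

lemma isConj_map {H K : Type} [Group H] [Group K] (f : H →* K) {a b : H} (h : IsConj a b) :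
    IsConj (f a) (f b) := by
  obtain ⟨c, rfl⟩ := isConj_iff.1 h
  exact isConj_iff.2 ⟨f c, by simp⟩

lemma isConj_cj {H : Type} [Group H] (c g : H) : IsConj (cj c g) g :=
  isConj_iff.2 ⟨c⁻¹, by unfold cj; group⟩

lemma j1_T_iter (p q r : ℕ) (w : F) (m : ℕ) :
    IsConj (j1 ((T p q r)^[m] w)) ((fmap (τ1 p q r))^[m] (j1 w)) := by
  induction m with
  | zero => exact IsConj.refl _
  | succ m ih =>
    rw [Function.iterate_succ_apply', Function.iterate_succ_apply', j1_T]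
    exact (isConj_cj _ _).trans (isConj_map _ ih)

/-! ### second decomposition -/

abbrev P2 := CoprodI (fun _ : Fin 2 => H2)

abbrev o2 (i : Fin 2) : H2 →* P2 := CoprodI.of (M := fun _ : Fin 2 => H2) (i := i)

abbrev Z (k : Fin 2) : H2 := FreeGroup.of k

def j2 : F →* P2 := FreeGroup.lift
  ![1, o2 0 (Z 0), o2 0 ((Z 0)⁻¹ * Z 1), o2 1 (Z 0), o2 1 ((Z 0)⁻¹ * Z 1)]

def r2a : H2 →* F := FreeGroup.lift ![wA, wB]
def r2b : H2 →* F := FreeGroup.lift ![X 3, wE]

def r2 : P2 →* F := CoprodI.lift (fun i : Fin 2 => if i = 0 then r2a else r2b)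

lemma r2_0 (g : H2) : r2 (o2 0 g) = r2a g := by
  unfold r2 o2
  rw [CoprodI.lift_of, if_pos rfl]

lemma r2_1 (g : H2) : r2 (o2 1 g) = r2b g := by
  unfold r2 o2
  rw [CoprodI.lift_of, if_neg (by decide)]

lemma j2_0 : j2 (X 0) = 1 := FreeGroup.lift_apply_of
lemma j2_1 : j2 (X 1) = o2 0 (Z 0) := FreeGroup.lift_apply_of
lemma j2_2 : j2 (X 2) = o2 0 ((Z 0)⁻¹ * Z 1) := FreeGroup.lift_apply_of
lemma j2_3 : j2 (X 3) = o2 1 (Z 0) := FreeGroup.lift_apply_of
lemma j2_4 : j2 (X 4) = o2 1 ((Z 0)⁻¹ * Z 1) := FreeGroup.lift_apply_of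

lemma j2_A : j2 wA = o2 0 (Z 0) := by rw [map_mul, j2_0, j2_1, one_mul]

lemma j2_B : j2 wB = o2 0 (Z 1) := by
  have : wB = wA * X 2 := rfl
  rw [this, map_mul, j2_A, j2_2, ← map_mul, mul_inv_cancel_left]

lemma j2_E : j2 wE = o2 1 (Z 1) := by
  rw [map_mul, j2_3, j2_4, ← map_mul, mul_inv_cancel_left]

lemma j2_r2 (u : P2) : j2 (r2 u) = u := by
  have h : j2.comp r2 = MonoidHom.id P2 := by
    apply CoprodI.ext_hom
    intro i
    apply FreeGroup.ext_hom
    intro k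
    change j2 (r2 (o2 i (Z k))) = o2 i (Z k)
    fin_cases i
    · change j2 (r2 (o2 0 (Z k))) = o2 0 (Z k)
      rw [r2_0, r2a, FreeGroup.lift_apply_of]
      fin_cases k
      · exact j2_A
      · exact j2_B
    · change j2 (r2 (o2 1 (Z k))) = o2 1 (Z k)
      rw [r2_1, r2b, FreeGroup.lift_apply_of]
      fin_cases k
      · exact j2_3
      · exact j2_E
  exact DFunLike.congr_fun h u

def τ2 (p r : ℕ) : ∀ _ : Fin 2, H2 →* H2 :=
  fun i => if i = 0 then (MulAut.conj (Z 1 ^ p)).toMonoidHom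
    else (MulAut.conj (Z 1 ^ r)).toMonoidHom

lemma τ2_inj (p r : ℕ) (i : Fin 2) : Function.Injective (τ2 p r i) := by
  unfold τ2
  split_ifs
  · exact (MulAut.conj (Z 1 ^ p)).injective
  · exact (MulAut.conj (Z 1 ^ r)).injective

lemma fm2_0 (p r : ℕ) (g : H2) : fmap (τ2 p r) (o2 0 g) = o2 0 (cj (Z 1 ^ p) g) := by
  unfold fmap o2 τ2
  rw [CoprodI.lift_of, if_pos rfl]
  rfl

lemma fm2_1 (p r : ℕ) (g : H2) : fmap (τ2 p r) (o2 1 g) = o2 1 (cj (Z 1 ^ r) g) := by
  unfold fmap o2 τ2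
  rw [CoprodI.lift_of, if_neg (by decide)]
  rfl

lemma T_r2 (p q r : ℕ) (u : P2) : T p q r (r2 u) = r2 (fmap (τ2 p r) u) := by
  have h : (T p q r).comp r2 = r2.comp (fmap (τ2 p r)) := by
    apply CoprodI.ext_hom
    intro i
    apply FreeGroup.ext_hom
    intro k
    change T p q r (r2 (o2 i (Z k))) = r2 (fmap (τ2 p r) (o2 i (Z k)))
    have e0 : r2a (Z 0) = wA := FreeGroup.lift_apply_of
    have e1 : r2a (Z 1) = wB := FreeGroup.lift_apply_of
    have e2 : r2b (Z 0) = X 3 := FreeGroup.lift_apply_of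
    have e3 : r2b (Z 1) = wE := FreeGroup.lift_apply_of
    fin_cases i
    · change T p q r (r2 (o2 0 (Z k))) = r2 (fmap (τ2 p r) (o2 0 (Z k)))
      rw [fm2_0, r2_0, r2_0, map_cj, map_pow, e1]
      fin_cases k
      · change T p q r (r2a (Z 0)) = cj (wB ^ p) (r2a (Z 0))
        rw [e0, T_A]
      · change T p q r (r2a (Z 1)) = cj (wB ^ p) (r2a (Z 1))
        rw [e1, T_B, cj_pow_self]
    · change T p q r (r2 (o2 1 (Z k))) = r2 (fmap (τ2 p r) (o2 1 (Z k)))
      rw [fm2_1, r2_1, r2_1, map_cj, map_pow, e3]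
      fin_cases k
      · change T p q r (r2b (Z 0)) = cj (wE ^ r) (r2b (Z 0))
        rw [e2, T_3]
      · change T p q r (r2b (Z 1)) = cj (wE ^ r) (r2b (Z 1))
        rw [e3, T_E, cj_pow_self]
  exact DFunLike.congr_fun h u

lemma T_r2_iter (p q r : ℕ) (u : P2) (m : ℕ) :
    (T p q r)^[m] (r2 u) = r2 ((fmap (τ2 p r))^[m] u) := by
  induction m with
  | zero => rfl
  | succ m ih =>
    rw [Function.iterate_succ_apply', Function.iterate_succ_apply', ih, T_r2]

/-- the two-generator subgroups -/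
def ιh (P Q : F) : H2 →* F := FreeGroup.lift ![P, Q]

lemma ιh_0 (P Q : F) : ιh P Q (Z 0) = P := FreeGroup.lift_apply_of
lemma ιh_1 (P Q : F) : ιh P Q (Z 1) = Q := FreeGroup.lift_apply_of

lemma mem_of_gens {α : Type} (f : FreeGroup α →* F) (S : Subgroup F)
    (h : ∀ a, f (FreeGroup.of a) ∈ S) (g : FreeGroup α) : f g ∈ S := by
  induction g using FreeGroup.induction_on with
  | C1 => rw [map_one]; exact one_mem _
  | of a => exact h a
  | inv_of a ha => rw [map_inv]; exact inv_mem ha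
  | mul u v hu hv => rw [map_mul]; exact mul_mem hu hv

lemma iSup_map_le {G : Fin 2 → Type} [∀ i, Group (G i)] (S : ∀ i, Subgroup (G i))
    (f : CoprodI G →* F) (V : Subgroup F) (h : ∀ i, ∀ g ∈ S i, f (CoprodI.of g) ∈ V)
    (y : CoprodI G) (hy : y ∈ ⨆ i, (S i).map (CoprodI.of : G i →* CoprodI G)) : f y ∈ V := by
  have : (⨆ i, (S i).map (CoprodI.of : G i →* CoprodI G)) ≤ V.comap f := by
    apply iSup_le
    rintro i _ ⟨g, hg, rfl⟩
    exact h i g hg
  exact this hy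

/-- the four vertex groups -/
theorem elliptic (p q r : ℕ) (hp : 1 ≤ p) (hq : 1 ≤ q) (hr : 1 ≤ r) (d : F)
    (hd : ∀ m : ℕ, IsConj ((T p q r)^[m] d) d) :
    (∃ g, IsConj d (ιh (X 0) (X 1) g)) ∨ (∃ g, IsConj d (ιh wA (X 2) g)) ∨
      (∃ g, IsConj d (ιh wB wE g)) ∨ (∃ g, IsConj d (ιh (X 3) (X 4) g)) := by
  have hd1 : ∀ m : ℕ, IsConj ((fmap (τ1 p q r))^[m] (j1 d)) (j1 d) := by
    intro m
    exact (j1_T_iter p q r d m).symm.trans (isConj_map j1 (hd m))
  have hS : ∀ (i : Fin 2) (g : H3), (∃ N : ℕ, 1 ≤ N ∧ (τ1 p q r i)^[N] g = g) →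
      g ∈ (if i = 0 then Subgroup.zpowers (Y 1) else ⊤ : Subgroup H3) := by
    intro i g ⟨N, hN, h⟩
    split_ifs with hi
    · subst hi
      exact conj_periodic (1 : Fin 3) q N hq hN g h
    · trivial
  -- everything outside the first vertex group is in the range of `r2`
  have step1 : (∃ g, IsConj d (ιh (X 0) (X 1) g)) ∨ ∃ u, IsConj d (r2 u) := by
    rcases fixed_class (τ1 p q r) (τ1_inj p q r) (j1 d) hd1 _ hS with ⟨i, g, hg⟩ | ⟨y, hy, hy'⟩
    · have h1 := isConj_map r1 hg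
      rw [r1_j1] at h1
      fin_cases i
      · left
        change IsConj d (r1 (o1 0 g)) at h1
        rw [r1_0] at h1
        have h2 : r1a g ∈ (ιh (X 0) (X 1)).range := by
          apply mem_of_gens
          intro a
          rw [r1a, FreeGroup.lift_apply_of]
          fin_cases a
          · exact ⟨Z 0, ιh_0 _ _⟩
          · exact ⟨Z 0 * Z 1, by rw [map_mul, ιh_0, ιh_1]; rfl⟩
          · exact one_mem _
        obtain ⟨g', hg'⟩ := h2
        exact ⟨g', by rw [hg']; exact h1⟩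
      · right
        change IsConj d (r1 (o1 1 g)) at h1
        rw [r1_1] at h1
        have h2 : r1b g ∈ r2.range := by
          apply mem_of_gens
          intro a
          rw [r1b, FreeGroup.lift_apply_of]
          fin_cases a
          · exact ⟨o2 0 (Z 1), by rw [r2_0]; exact FreeGroup.lift_apply_of⟩
          · exact ⟨o2 1 (Z 0), by rw [r2_1]; exact FreeGroup.lift_apply_of⟩
          · exact ⟨o2 1 (Z 1), by rw [r2_1]; exact FreeGroup.lift_apply_of⟩
        obtain ⟨g', hg'⟩ := h2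
        exact ⟨g', by rw [hg']; exact h1⟩
    · right
      have h1 := isConj_map r1 hy'
      rw [r1_j1] at h1
      have h2 : r1 y ∈ r2.range := by
        refine iSup_map_le _ r1 _ ?_ y hy
        intro i g hg
        fin_cases i
        · change r1 (o1 0 g) ∈ _
          rw [r1_0]
          change g ∈ Subgroup.zpowers (Y 1) at hg
          obtain ⟨k, rfl⟩ := hg
          simp only [map_zpow]
          apply zpow_mem
          exact ⟨o2 0 (Z 0), by
            rw [r2_0]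
            exact (FreeGroup.lift_apply_of (f := ![wA, wB]) (x := 0)).trans
              (FreeGroup.lift_apply_of (f := ![X 0, wA, 1]) (x := 1)).symm⟩
        · change r1 (o1 1 g) ∈ _
          rw [r1_1]
          apply mem_of_gens
          intro a
          rw [r1b, FreeGroup.lift_apply_of]
          fin_cases a
          · exact ⟨o2 0 (Z 1), by rw [r2_0]; exact FreeGroup.lift_apply_of⟩
          · exact ⟨o2 1 (Z 0), by rw [r2_1]; exact FreeGroup.lift_apply_of⟩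
          · exact ⟨o2 1 (Z 1), by rw [r2_1]; exact FreeGroup.lift_apply_of⟩
      obtain ⟨g', hg'⟩ := h2
      exact ⟨g', by rw [hg']; exact h1⟩
  rcases step1 with h | ⟨u, hu⟩
  · exact Or.inl h
  right
  have hd2 : ∀ m : ℕ, IsConj ((fmap (τ2 p r))^[m] u) u := by
    intro m
    have h1 : IsConj ((T p q r)^[m] d) ((T p q r)^[m] (r2 u)) := by
      induction m with
      | zero => exact hu
      | succ m ih =>
        rw [Function.iterate_succ_apply', Function.iterate_succ_apply']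
        exact isConj_map _ ih
    have h2 : IsConj (r2 ((fmap (τ2 p r))^[m] u)) (r2 u) := by
      rw [← T_r2_iter p q r]
      exact (h1.symm.trans (hd m)).trans hu
    have h3 := isConj_map j2 h2
    rwa [j2_r2, j2_r2] at h3
  have hS2 : ∀ (i : Fin 2) (g : H2), (∃ N : ℕ, 1 ≤ N ∧ (τ2 p r i)^[N] g = g) →
      g ∈ Subgroup.zpowers (Z 1) := by
    intro i g ⟨N, hN, h⟩
    fin_cases i
    · exact conj_periodic (1 : Fin 2) p N hp hN g h
    · exact conj_periodic (1 : Fin 2) r N hr hN g h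
  rcases fixed_class (τ2 p r) (τ2_inj p r) u hd2 _ hS2 with ⟨i, g, hg⟩ | ⟨y, hy, hy'⟩
  · have h1 := hu.trans (isConj_map r2 hg)
    fin_cases i
    · left
      change IsConj d (r2 (o2 0 g)) at h1
      rw [r2_0] at h1
      have h2 : r2a g ∈ (ιh wA (X 2)).range := by
        apply mem_of_gens
        intro a
        rw [r2a, FreeGroup.lift_apply_of]
        fin_cases a
        · exact ⟨Z 0, ιh_0 _ _⟩
        · exact ⟨Z 0 * Z 1, by rw [map_mul, ιh_0, ιh_1]; rfl⟩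
      obtain ⟨g', hg'⟩ := h2
      exact ⟨g', by rw [hg']; exact h1⟩
    · right; right
      change IsConj d (r2 (o2 1 g)) at h1
      rw [r2_1] at h1
      have h2 : r2b g ∈ (ιh (X 3) (X 4)).range := by
        apply mem_of_gens
        intro a
        rw [r2b, FreeGroup.lift_apply_of]
        fin_cases a
        · exact ⟨Z 0, ιh_0 _ _⟩
        · exact ⟨Z 0 * Z 1, by rw [map_mul, ιh_0, ιh_1]; rfl⟩
      obtain ⟨g', hg'⟩ := h2
      exact ⟨g', by rw [hg']; exact h1⟩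
  · right; left
    have h1 := hu.trans (isConj_map r2 hy')
    have h2 : r2 y ∈ (ιh wB wE).range := by
      refine iSup_map_le _ r2 _ ?_ y hy
      intro i g hg
      obtain ⟨k, rfl⟩ := hg
      simp only [map_zpow]
      apply zpow_mem
      fin_cases i
      · change r2 (o2 0 (Z 1)) ∈ _
        rw [r2_0]
        exact ⟨Z 0, (ιh_0 _ _).trans (FreeGroup.lift_apply_of (f := ![wA, wB]) (x := 1)).symm⟩
      · change r2 (o2 1 (Z 1)) ∈ _
        rw [r2_1]
        exact ⟨Z 1, (ιh_1 _ _).trans (FreeGroup.lift_apply_of (f := ![X 3, wE]) (x := 1)).symm⟩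
    obtain ⟨g', hg'⟩ := h2
    exact ⟨g', by rw [hg']; exact h1⟩

end Pool.Agent.H926R3.Br
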